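import Pool.Agent.Lib.MP_c80ac4_an.DP.Ret

/-!
# Row A1 (helper3): almost every `x` returns

PROOF IN WORDS. By `ae_all_iff` it is enough to treat one `m` and one `ε = 1 / (j + 1)`. Let
`Y a = {y : ∀ i < m, |θ ^ i * y - round (θ ^ i * y)| ≤ a}`.
(1) RELATIVE DENSITY: there is `G > 0` such that every real `y` has a `y' ∈ Y (ε / 2)` with
`|y - y'| ≤ G`. Pigeonhole: let `J` be an integer `> 2 / ε` and let the code of `y` be
`i ↦ ⌊J * Int.fract (θ ^ i * y)⌋` in `Fin m → Fin J` (or `Fin m → ℤ` with values in a finite set).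
For every code that occurs choose a real `y_c` with this code, `G = 1 + max |y_c|`, and for `y` with
the code `c` take `y' = y - y_c`: `θ ^ i * y' = θ ^ i * y - θ ^ i * y_c` differs from an integer by the
difference of the fractional parts, which is `< 1 / J ≤ ε / 2`.
(2) With `δ = ε / (2 * θ ^ m)` the interval `[y' - δ, y' + δ]` is contained in `Y ε` for
`y' ∈ Y (ε / 2)` (`round` is the nearest integer: `round_le`, `abs_sub_round_le..`).
(3) Let `B K = {x : ∀ k ≥ K, θ ^ k * x ∉ Y ε}` (measurable). If `volume (B K) ≠ 0` there is a density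
point `x ∈ B K`: `volume (B K ∩ closedBall x ρ) / volume (closedBall x ρ) → 1` as `ρ → 0+` (as in
`DP/P3.lean`, `Besicovitch.ae_tendsto_measure_inter_div`). For `ρ = 2 (G + δ) θ⁻¹ ^ k`, `k ≥ K`, the
interval `θ⁻¹ ^ k [y' - δ, y' + δ]` with `|θ ^ k x - y'| ≤ G` is contained in the ball and disjoint from
`B K`, so the ratio is at most `1 - 2 δ / (4 (G + δ))`, a contradiction. So all `B K` are null sets and
almost every `x` satisfies `θ ^ k x ∈ Y ε` for infinitely many `k`, i.e.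
`|θ ^ (k + i) x - round| ≤ ε` for all `i < m` (`θ ^ i * (θ ^ k * x) = θ ^ (k + i) * x`).
-/

namespace Forcing.DP

open MeasureTheory Filter Topology

/-- the numbers near the integers together with their first multiples by powers of `θ` -/
private def Gd (θ : ℝ) (m : ℕ) (ε y : ℝ) : Prop := ∀ i < m, ∃ k : ℤ, |θ ^ i * y - k| ≤ ε

private theorem a1_dense (θ : ℝ) (m : ℕ) {ε : ℝ} (hε : 0 < ε) :
    ∃ G : ℝ, ∀ y : ℝ, ∃ y' : ℝ, |y - y'| ≤ G ∧ Gd θ m ε y' := by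
  obtain ⟨J, hJ⟩ := exists_nat_one_div_lt hε
  have hJ0 : (0 : ℝ) < (J : ℝ) + 1 := by positivity
  let code : ℝ → (Fin m → ℤ) := fun y i => ⌊((J : ℝ) + 1) * Int.fract (θ ^ (i : ℕ) * y)⌋
  have hfin : (Set.range code).Finite := by
    refine Set.Finite.subset (Set.Finite.pi' (t := fun _ : Fin m => Set.Icc (0 : ℤ) (J + 1)) fun _ => Set.finite_Icc _ _) ?_
    rintro c ⟨y, rfl⟩ i
    have h0 := Int.fract_nonneg (θ ^ (i : ℕ) * y)
    have h1 := Int.fract_lt_one (θ ^ (i : ℕ) * y)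
    constructor
    · exact Int.floor_nonneg.mpr (by positivity)
    · have h2 : ((J : ℝ) + 1) * Int.fract (θ ^ (i : ℕ) * y) ≤ ((J + 1 : ℤ) : ℝ) := by
        push_cast
        nlinarith
      exact Int.floor_le_iff.mpr (lt_of_le_of_lt h2 (by linarith))
  obtain ⟨G, hG⟩ := (hfin.image fun c => |Function.invFun code c|).bddAbove
  refine ⟨G, fun y => ⟨y - Function.invFun code (code y), ?_, fun i hi => ?_⟩⟩
  · rw [sub_sub_cancel]
    exact hG ⟨code y, ⟨y, rfl⟩, rfl⟩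
  · set r := Function.invFun code (code y) with hr
    have h1 : code r = code y := Function.invFun_eq ⟨y, rfl⟩
    have h2 : ⌊((J : ℝ) + 1) * Int.fract (θ ^ i * r)⌋ = ⌊((J : ℝ) + 1) * Int.fract (θ ^ i * y)⌋ :=
      congrFun h1 ⟨i, hi⟩
    have h3 := Int.abs_sub_lt_one_of_floor_eq_floor h2.symm
    rw [← mul_sub, abs_mul, abs_of_pos hJ0] at h3
    refine ⟨⌊θ ^ i * y⌋ - ⌊θ ^ i * r⌋, ?_⟩
    have h4 : θ ^ i * (y - r) - ((⌊θ ^ i * y⌋ - ⌊θ ^ i * r⌋ : ℤ) : ℝ) =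
        Int.fract (θ ^ i * y) - Int.fract (θ ^ i * r) := by
      have a := Int.floor_add_fract (θ ^ i * y)
      have b := Int.floor_add_fract (θ ^ i * r)
      push_cast
      linarith
    rw [h4]
    have h5 : |Int.fract (θ ^ i * y) - Int.fract (θ ^ i * r)| < 1 / ((J : ℝ) + 1) := by
      rw [lt_div_iff₀ hJ0, mul_comm]
      exact h3
    linarith

private theorem a1_step {θ : ℝ} (hθ : 1 < θ) (m : ℕ) {ε : ℝ} (hε : 0 < ε) :
    ∃ G δ : ℝ, 0 ≤ G ∧ 0 < δ ∧ ∀ y : ℝ, ∃ y' : ℝ, |y - y'| ≤ G ∧ ∀ z, |z - y'| ≤ δ → Gd θ m ε z := by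
  obtain ⟨G, hG⟩ := a1_dense θ m (half_pos hε)
  have hθm : 0 < θ ^ m := by positivity
  refine ⟨|G|, ε / 2 / θ ^ m, abs_nonneg _, by positivity, fun y => ?_⟩
  obtain ⟨y', h1, h2⟩ := hG y
  refine ⟨y', h1.trans (le_abs_self G), fun z hz i hi => ?_⟩
  obtain ⟨k, hk⟩ := h2 i hi
  refine ⟨k, ?_⟩
  have h3 : θ ^ i ≤ θ ^ m := pow_le_pow_right₀ hθ.le hi.le
  have h4 : |θ ^ i * (z - y')| ≤ ε / 2 := by
    rw [abs_mul, abs_of_pos (by positivity)]
    calc θ ^ i * |z - y'| ≤ θ ^ m * (ε / 2 / θ ^ m) :=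
          mul_le_mul h3 hz (abs_nonneg _) hθm.le
      _ = ε / 2 := by field_simp
  have h5 : θ ^ i * z - k = θ ^ i * (z - y') + (θ ^ i * y' - k) := by ring
  rw [h5]
  exact (abs_add_le _ _).trans (by linarith)

private theorem a1_null {θ : ℝ} (hθ : 1 < θ) (m : ℕ) {ε : ℝ} (hε : 0 < ε) (K : ℕ) :
    volume {x : ℝ | ∀ k ≥ K, ¬ Gd θ m ε (θ ^ k * x)} = 0 := by
  set B : Set ℝ := {x : ℝ | ∀ k ≥ K, ¬ Gd θ m ε (θ ^ k * x)} with hB
  by_contra hpos
  have hne : (volume : Measure ℝ).restrict B ≠ 0 := by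
    intro h
    rw [Measure.restrict_eq_zero] at h
    exact hpos h
  have : NeBot (ae ((volume : Measure ℝ).restrict B)) := ae_neBot.mpr hne
  obtain ⟨x, hx⟩ := (Besicovitch.ae_tendsto_measure_inter_div (volume : Measure ℝ) B).exists
  obtain ⟨G, δ, hG, hδ, hstep⟩ := a1_step hθ m hε
  have hθ0 : 0 < θ := by linarith
  have hGδ : 0 < G + δ := by linarith
  have hc : 0 < δ / (G + δ) := by positivity
  have hc1 : δ / (G + δ) ≤ 1 := by
    rw [div_le_one hGδ]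
    linarith
  have h1 : ENNReal.ofReal (1 - δ / (G + δ)) < 1 := by
    rw [ENNReal.ofReal_lt_one]
    linarith
  have h2 := hx.eventually (lt_mem_nhds h1)
  have h3 : Tendsto (fun n : ℕ => (G + δ) * θ⁻¹ ^ n) atTop (𝓝[>] 0) := by
    refine tendsto_nhdsWithin_iff.mpr ⟨?_, Eventually.of_forall fun n => ?_⟩
    · have h4 := (tendsto_pow_atTop_nhds_zero_of_lt_one (r := θ⁻¹) (by positivity)
        (inv_lt_one_of_one_lt₀ hθ)).const_mul (G + δ)
      rwa [mul_zero] at h4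
    · simp only [Set.mem_Ioi]
      positivity
  obtain ⟨k, hk1, hk2⟩ := ((h3.eventually h2).and (eventually_ge_atTop K)).exists
  have hr0 : 0 < (G + δ) * θ⁻¹ ^ k := by positivity
  have hk0 : 0 < θ⁻¹ ^ k := by positivity
  have hkk : θ ^ k * θ⁻¹ ^ k = 1 := by
    rw [← mul_pow, mul_inv_cancel₀ hθ0.ne', one_pow]
  obtain ⟨y', hy1, hy2⟩ := hstep (θ ^ k * x)
  set I : Set ℝ := Metric.closedBall (θ⁻¹ ^ k * y') (δ * θ⁻¹ ^ k) with hI
  have hIB : I ⊆ Metric.closedBall x ((G + δ) * θ⁻¹ ^ k) := by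
    intro z hz
    rw [hI, Metric.mem_closedBall, Real.dist_eq] at hz
    rw [Metric.mem_closedBall, Real.dist_eq]
    have h5 : z - x = (z - θ⁻¹ ^ k * y') + θ⁻¹ ^ k * (y' - θ ^ k * x) := by
      linear_combination (x : ℝ) * hkk
    have h6 : |θ⁻¹ ^ k * (y' - θ ^ k * x)| ≤ G * θ⁻¹ ^ k := by
      rw [abs_mul, abs_of_pos hk0, mul_comm]
      refine mul_le_mul_of_nonneg_right ?_ hk0.le
      rw [abs_sub_comm]
      exact hy1
    rw [h5]
    refine (abs_add_le _ _).trans ?_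
    linarith
  have hIn : ∀ z ∈ I, z ∉ B := by
    intro z hz hzB
    refine hzB k hk2 (hy2 _ ?_)
    rw [hI, Metric.mem_closedBall, Real.dist_eq] at hz
    have h5 : θ ^ k * z - y' = θ ^ k * (z - θ⁻¹ ^ k * y') := by
      linear_combination (y' : ℝ) * hkk
    rw [h5, abs_mul, abs_of_pos (by positivity)]
    calc θ ^ k * |z - θ⁻¹ ^ k * y'| ≤ θ ^ k * (δ * θ⁻¹ ^ k) := mul_le_mul_of_nonneg_left hz (by positivity)
      _ = δ := by
        linear_combination (δ : ℝ) * hkk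
  have hsub : B ∩ Metric.closedBall x ((G + δ) * θ⁻¹ ^ k) ⊆ Metric.closedBall x ((G + δ) * θ⁻¹ ^ k) \ I :=
    fun z hz => ⟨hz.2, fun hzI => hIn z hzI hz.1⟩
  have hball : volume (Metric.closedBall x ((G + δ) * θ⁻¹ ^ k)) = ENNReal.ofReal (2 * ((G + δ) * θ⁻¹ ^ k)) :=
    Real.volume_closedBall _ _
  have hIv : volume I = ENNReal.ofReal (2 * (δ * θ⁻¹ ^ k)) := Real.volume_closedBall _ _
  have hvol : volume (B ∩ Metric.closedBall x ((G + δ) * θ⁻¹ ^ k)) ≤
      ENNReal.ofReal (2 * ((G + δ) * θ⁻¹ ^ k) - 2 * (δ * θ⁻¹ ^ k)) := by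
    refine (measure_mono hsub).trans (le_of_eq ?_)
    rw [measure_sdiff hIB Metric.isClosed_closedBall.measurableSet.nullMeasurableSet
      (by rw [hIv]; exact ENNReal.ofReal_ne_top), hball, hIv, ENNReal.ofReal_sub _ (by positivity)]
  rw [hball] at hk1
  have h7 : volume (B ∩ Metric.closedBall x ((G + δ) * θ⁻¹ ^ k)) / ENNReal.ofReal (2 * ((G + δ) * θ⁻¹ ^ k)) ≤
      ENNReal.ofReal (1 - δ / (G + δ)) := by
    have h8 : ENNReal.ofReal (2 * ((G + δ) * θ⁻¹ ^ k)) ≠ 0 := by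
      rw [Ne, ENNReal.ofReal_eq_zero, not_le]
      linarith
    rw [ENNReal.div_le_iff h8 ENNReal.ofReal_ne_top]
    refine hvol.trans (le_of_eq ?_)
    rw [← ENNReal.ofReal_mul (by linarith)]
    congr 1
    field_simp
  exact absurd hk1 (not_lt.mpr h7)

theorem ae_ret {θ : ℝ} (hθ : 1 < θ) : ∀ᵐ x : ℝ ∂volume, Ret θ x := by
  have h1 : ∀ m j : ℕ, ∀ᵐ x : ℝ ∂volume, ∀ K : ℕ, ∃ k ≥ K, Gd θ m (1 / ((j : ℝ) + 1)) (θ ^ k * x) := by
    intro m j
    rw [ae_all_iff]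
    intro K
    have h2 := a1_null hθ m (ε := 1 / ((j : ℝ) + 1)) (by positivity) K
    rw [measure_eq_zero_iff_ae_notMem] at h2
    filter_upwards [h2] with x hx
    simp only [not_forall, not_not] at hx
    obtain ⟨k, hk, h3⟩ := hx
    exact ⟨k, hk, h3⟩
  have h4 : ∀ᵐ x : ℝ ∂volume, ∀ m j K : ℕ, ∃ k ≥ K, Gd θ m (1 / ((j : ℝ) + 1)) (θ ^ k * x) := by
    rw [ae_all_iff]
    intro m
    rw [ae_all_iff]
    intro j
    exact h1 m j
  filter_upwards [h4] with x hx m ε hε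
  obtain ⟨j, hj⟩ := exists_nat_one_div_lt hε
  rw [Filter.frequently_atTop]
  intro K
  obtain ⟨k, hk, h5⟩ := hx m j K
  refine ⟨k, hk, fun i hi => ?_⟩
  obtain ⟨n, hn⟩ := h5 i hi
  have h6 : θ ^ (k + i) * x = θ ^ i * (θ ^ k * x) := by ring
  rw [h6]
  exact (round_le _ n).trans (hn.trans hj.le)

end Forcing.DP
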