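import Pool.Agent.Lib.MP_c80ac4_an.DP.A1

/-!
# Row A2 (helper3): almost every `r` has a returning inverse

PROOF IN WORDS. Let `N = {x : ¬ Ret θ x}`, a null set (`ae_ret`). `{r : ¬ Ret θ r⁻¹} ⊆ {0} ∪
((fun x => x⁻¹) '' (N \ {0}))` (because `r = (r⁻¹)⁻¹`), and the image of a null set under a map
differentiable on it is a null set (`MeasureTheory.addHaar_image_eq_zero_of_differentiableOn_of_addHaar_eq_zero`;
`x ↦ x⁻¹` is differentiable on `N \ {0}`).
-/

namespace Forcing.DP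

open MeasureTheory Filter Topology

theorem ae_ret_inv {θ : ℝ} (hθ : 1 < θ) : ∀ᵐ r : ℝ ∂volume, Ret θ r⁻¹ := by
  have h0 : volume {x : ℝ | ¬ Ret θ x} = 0 := ae_ret hθ
  have h1 : volume ({x : ℝ | ¬ Ret θ x} \ {0}) = 0 := measure_mono_null Set.sdiff_subset h0
  have hd : DifferentiableOn ℝ (fun x : ℝ => x⁻¹) ({x : ℝ | ¬ Ret θ x} \ {0}) := by
    intro x hx
    exact (differentiableAt_inv (by simpa using hx.2)).differentiableWithinAt
  have h2 : volume ((fun x : ℝ => x⁻¹) '' ({x : ℝ | ¬ Ret θ x} \ {0})) = 0 :=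
    MeasureTheory.addHaar_image_eq_zero_of_differentiableOn_of_addHaar_eq_zero volume hd h1
  have hsub : {r : ℝ | ¬ Ret θ r⁻¹} ⊆ {0} ∪ (fun x : ℝ => x⁻¹) '' ({x : ℝ | ¬ Ret θ x} \ {0}) := by
    intro r hr
    by_cases h : r = 0
    · exact Or.inl h
    · exact Or.inr ⟨r⁻¹, ⟨hr, by simpa using inv_ne_zero h⟩, inv_inv r⟩
  have h3 : volume {r : ℝ | ¬ Ret θ r⁻¹} = 0 := by
    refine measure_mono_null hsub ?_
    rw [measure_union_null_iff]
    exact ⟨by simp, h2⟩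
  exact h3

end Forcing.DP
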