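import Mathlib

/-! # Returns of the orbit of `x` under multiplication by `θ` to the integers: definition -/

namespace Forcing.DP

/-- For every `m` and `ε` there are infinitely many `k` such that all numbers `θ ^ (k + i) * x`,
`i < m`, are within `ε` of the integers. -/
def Ret (θ x : ℝ) : Prop :=
  ∀ (m : ℕ) (ε : ℝ), 0 < ε → ∃ᶠ k : ℕ in Filter.atTop, ∀ i < m,
    |θ ^ (k + i) * x - round (θ ^ (k + i) * x)| ≤ ε

end Forcing.DP
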