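import Pool.Agent.Lib.MP_c80ac4_an.DZ.Dich

/-! # Overlapping digit sets: the sums of `n` digits -/

namespace Forcing.DP

open Forcing.HM Forcing.Ratio

/-- The sums of `n` digits, `d 0 * θ ^ (n - 1) + … + d (n - 1)`. -/
def Lam (θ : ℝ) (A : Set ℝ) (n : ℕ) : Set ℝ :=
  {x | ∃ d : ℕ → ℝ, (∀ j, d j ∈ A) ∧ x = ∑ j ∈ Finset.range n, d j * θ ^ (n - 1 - j)}

/-- Digit sets are compact. -/
theorem isCompact_digitSet {θ : ℝ} (hθ : 1 < θ) (A : Finset ℝ) :
    IsCompact (digitSet θ (A : Set ℝ)) := by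
  have h0 : 0 < θ⁻¹ := inv_pos.2 (by linarith)
  have h1 : θ⁻¹ < 1 := inv_lt_one_of_one_lt₀ hθ
  obtain ⟨M, hM⟩ : ∃ M : ℝ, ∀ a ∈ A, |a| ≤ M :=
    ⟨∑ a ∈ A, |a|, fun a ha => Finset.single_le_sum (f := fun a => |a|)
      (fun i _ => abs_nonneg i) ha⟩
  have hb : ∀ (j : ℕ) (ω : ℕ → A), ‖(ω j : ℝ) * θ⁻¹ ^ (j + 1)‖ ≤ M * θ⁻¹ ^ (j + 1) := by
    intro j ω
    rw [norm_mul, Real.norm_eq_abs, norm_pow, Real.norm_eq_abs, abs_of_pos h0]
    exact mul_le_mul_of_nonneg_right (hM _ (ω j).2) (by positivity)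
  have hs : Summable fun j : ℕ => M * θ⁻¹ ^ (j + 1) := by
    have h2 : Summable fun j : ℕ => θ⁻¹ ^ j := summable_geometric_of_lt_one h0.le h1
    exact ((summable_nat_add_iff 1).2 h2).mul_left M
  have hc : Continuous fun ω : ℕ → A => ∑' j, (ω j : ℝ) * θ⁻¹ ^ (j + 1) :=
    continuous_tsum (fun j => by fun_prop) hs hb
  have heq : digitSet θ (A : Set ℝ) =
      Set.range fun ω : ℕ → A => ∑' j, (ω j : ℝ) * θ⁻¹ ^ (j + 1) := by
    ext x
    constructor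
    · rintro ⟨d, hd, hx⟩
      refine ⟨fun j => ⟨d j, Finset.mem_coe.1 (hd j)⟩, ?_⟩
      show ∑' j, d j * θ⁻¹ ^ (j + 1) = x
      rw [hx.tsum_eq]
    · rintro ⟨ω, rfl⟩
      exact ⟨fun j => (ω j : ℝ), fun j => (ω j).2,
        (Summable.of_norm_bounded hs fun j => hb j ω).hasSum⟩
  rw [heq]
  exact isCompact_range hc

/-- Splitting off the first `n` digits. -/
theorem mem_split {θ : ℝ} (hθ : 1 < θ) {A : Set ℝ} (n : ℕ) {x : ℝ} :
    x ∈ digitSet θ A ↔ ∃ l ∈ Lam θ A n, ∃ y ∈ digitSet θ A, x = θ⁻¹ ^ n * (l + y) := by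
  have h0 : θ ≠ 0 := by linarith
  have hterm : ∀ (d : ℕ → ℝ), ∑ j ∈ Finset.range n, d j * θ⁻¹ ^ (j + 1) =
      θ⁻¹ ^ n * ∑ j ∈ Finset.range n, d j * θ ^ (n - 1 - j) := by
    intro d
    rw [Finset.mul_sum]
    refine Finset.sum_congr rfl fun j hj => ?_
    rw [Finset.mem_range] at hj
    have h1 : n = (n - 1 - j) + (j + 1) := by omega
    have h2 : θ⁻¹ ^ n * θ ^ (n - 1 - j) = θ⁻¹ ^ (j + 1) := by
      conv_lhs => rw [h1]
      rw [show n - 1 - j + (j + 1) - 1 - j = n - 1 - j by omega, pow_add, inv_pow, inv_pow]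
      field_simp
    rw [← h2]
    ring
  constructor
  · rintro ⟨d, hd, hx⟩
    refine ⟨_, ⟨d, hd, rfl⟩, θ ^ n * (x - ∑ j ∈ Finset.range n, d j * θ⁻¹ ^ (j + 1)),
      ⟨fun j => d (j + n), fun j => hd _, ?_⟩, ?_⟩
    · have h1 := (hasSum_nat_add_iff' n).2 hx
      have h2 := h1.mul_left (θ ^ n)
      refine h2.congr_fun ?_
      intro j
      have h3 : θ ^ n * θ⁻¹ ^ (j + n + 1) = θ⁻¹ ^ (j + 1) := by
        rw [show j + n + 1 = n + (j + 1) by ring, pow_add, ← mul_assoc, ← mul_pow,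
          mul_inv_cancel₀ h0, one_pow, one_mul]
      rw [← h3]
      ring
    · rw [mul_add, ← hterm d, ← mul_assoc, ← mul_pow, inv_mul_cancel₀ h0, one_pow, one_mul]
      ring
  · rintro ⟨_, ⟨d, hd, rfl⟩, y, ⟨d', hd', hy⟩, rfl⟩
    refine ⟨fun j => if j < n then d j else d' (j - n), fun j => ?_, ?_⟩
    · show (if j < n then d j else d' (j - n)) ∈ A
      split_ifs
      · exact hd j
      · exact hd' _
    · rw [← hasSum_nat_add_iff' n]
      have h1 : ∑ j ∈ Finset.range n, (if j < n then d j else d' (j - n)) * θ⁻¹ ^ (j + 1) =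
          θ⁻¹ ^ n * ∑ j ∈ Finset.range n, d j * θ ^ (n - 1 - j) := by
        rw [← hterm d]
        refine Finset.sum_congr rfl fun j hj => ?_
        rw [if_pos (Finset.mem_range.1 hj)]
      rw [h1, mul_add, add_sub_cancel_left]
      refine (hy.mul_left (θ⁻¹ ^ n)).congr_fun ?_
      intro j
      show (if j + n < n then d (j + n) else d' (j + n - n)) * θ⁻¹ ^ (j + n + 1) =
        θ⁻¹ ^ n * (d' j * θ⁻¹ ^ (j + 1))
      rw [if_neg (by omega), Nat.add_sub_cancel, show j + n + 1 = n + (j + 1) by ring, pow_add]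
      ring

end Forcing.DP
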