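import Pool.Agent.Lib.MP_c80ac4_an.DP.Main
import Pool.Agent.Lib.MP_c80ac4_an.DP.A2
import Pool.Agent.Lib.MP_c80ac4_an.DP.A3

/-! # Almost all dilations of digit sets of Pisot numbers -/

namespace Forcing.DP

open Forcing.Ratio Forcing.HM Polynomial Metric IntermediateField Filter Topology MeasureTheory

theorem Ret.neg {θ x : ℝ} (h : Ret θ x) : Ret θ (-x) := by
  intro m ε hε
  refine (h m ε hε).mono fun k hk i hi => ?_
  have h1 := hk i hi
  have h2 := round_le (θ ^ (k + i) * -x) (-round (θ ^ (k + i) * x))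
  refine h2.trans ?_
  push_cast
  have h3 : θ ^ (k + i) * -x - -(round (θ ^ (k + i) * x) : ℝ) =
      -(θ ^ (k + i) * x - round (θ ^ (k + i) * x)) := by ring
  rw [h3, abs_neg]
  exact h1

theorem not_sidonOn_dil {θ : ℝ} (h : IsPisot θ) (A : Finset ℝ)
    (hA : ∀ a ∈ A, ∃ p : ℚ[X], aeval θ p = a)
    (harc : ¬ HasArc (e '' digitSet θ (A : Set ℝ))) {r : ℝ} (hr : 0 < r) (hret : Ret θ r⁻¹)
    {E : Set ℂ} (hE : E ⊆ e '' digitSet θ ((fun a => r * a) '' (A : Set ℝ))) : ¬ SidonOn E := by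
  classical
  intro hS
  have hθ : 1 < θ := h.1
  obtain ⟨M, hM, hMD⟩ := DZ.exists_denom A hA
  have hM0 : (M : ℝ) ≠ 0 := by
    have : (0 : ℝ) < M := by exact_mod_cast hM
    exact this.ne'
  set D : Finset ℝ := A.image fun d => (M : ℝ) * d with hD
  have hDc : (D : Set ℝ) = (fun a => (M : ℝ) * a) '' (A : Set ℝ) := by
    rw [hD, Finset.coe_image]
  have hDX : digitSet θ (D : Set ℝ) = (fun x => (M : ℝ) * x) '' digitSet θ (A : Set ℝ) := by
    rw [hDc, digitSet_image θ M hM0]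
  have hDp : ∀ d ∈ D, ∃ p : ℤ[X], aeval θ p = d := fun d hd => by
    obtain ⟨d', hd', rfl⟩ := Finset.mem_image.1 hd
    exact hMD d' hd'
  have hfin := lam_diff_finite h D hDp
  have hvol : volume (digitSet θ (D : Set ℝ)) = 0 := by
    by_contra hpos
    have h1 := interior_of_pos hθ D hfin hpos
    apply harc
    apply hasArc_of_interior
    rw [hDX] at h1
    have h2 := (Homeomorph.mulLeft₀ (M : ℝ) hM0).image_interior (digitSet θ (A : Set ℝ))
    simp only [Homeomorph.coe_mulLeft₀] at h2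
    rw [← h2] at h1
    exact Set.image_nonempty.1 h1
  obtain ⟨c, hc, hsep⟩ : ∃ c : ℝ, 0 < c ∧ ∀ n, ∀ u ∈ Lam θ (D : Set ℝ) n,
      ∀ v ∈ Lam θ (D : Set ℝ) n, u ≠ v → c ≤ |u - v| := by
    set F : Finset ℝ := (hfin 1).toFinset.filter fun x => x ≠ 0 with hF
    rcases F.eq_empty_or_nonempty with h0 | h0
    · refine ⟨1, one_pos, fun n u hu v hv hne => ?_⟩
      by_contra hlt
      push Not at hlt
      have : u - v ∈ F := by
        rw [hF, Finset.mem_filter, Set.Finite.mem_toFinset]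
        exact ⟨⟨hlt.le, n, u, hu, v, hv, rfl⟩, sub_ne_zero.2 hne⟩
      rw [h0] at this
      exact absurd this (Finset.notMem_empty _)
    · obtain ⟨x, hx, hmin⟩ := F.exists_min_image (fun x => |x|) h0
      have hx0 : x ≠ 0 := (Finset.mem_filter.1 hx).2
      refine ⟨min |x| 1, lt_min (abs_pos.2 hx0) one_pos, fun n u hu v hv hne => ?_⟩
      by_cases hlt : |u - v| ≤ 1
      · have : u - v ∈ F := by
          rw [hF, Finset.mem_filter, Set.Finite.mem_toFinset]
          exact ⟨⟨hlt, n, u, hu, v, hv, rfl⟩, sub_ne_zero.2 hne⟩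
        exact (min_le_left _ _).trans (hmin _ this)
      · push Not at hlt
        exact (min_le_right _ _).trans hlt.le
  have hcount := count_small hθ D hc hsep hvol
  obtain ⟨m, w, η, h1, h2, h3, h4⟩ := misses_dil h D hDp hcount hr hret
  have hsub : (fun z => z ^ M) '' E ⊆ e '' ((fun x => r * x) '' digitSet θ (D : Set ℝ)) := by
    rintro _ ⟨z, hz, rfl⟩
    obtain ⟨y, hy, rfl⟩ := hE hz
    rw [digitSet_image θ r hr.ne'] at hy
    obtain ⟨x, hx, rfl⟩ := hy
    refine ⟨r * (M * x), ⟨M * x, ?_, rfl⟩, ?_⟩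
    · rw [hDX]
      exact ⟨x, hx, rfl⟩
    · simp only
      rw [e_pow]
      congr 1
      ring
  refine not_misses h1 w h2 h3 (E := (fun z => z ^ M) '' E) ?_ (DZ.sidonOn_pow hS hM)
    fun κ R hκ => ?_
  · intro z hz
    obtain ⟨x, -, rfl⟩ := hsub hz
    simpa using norm_e x
  · obtain ⟨n, t, h5, h6, h7⟩ := h4 κ R hκ
    exact ⟨n, t, h5, h6, fun z hz => h7 z (hsub hz)⟩

theorem hasArc_neg {θ : ℝ} {A : Set ℝ}
    (h : HasArc (e '' digitSet θ ((fun a => (-1 : ℝ) * a) '' A))) :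
    HasArc (e '' digitSet θ A) := by
  obtain ⟨z₀, hz₀, ε, hε, h⟩ := h
  refine ⟨(starRingEnd ℂ) z₀, by rwa [RCLike.norm_conj], ε, hε, fun z hz hd => ?_⟩
  obtain ⟨y, hy, hyz⟩ := h ((starRingEnd ℂ) z) (by rwa [RCLike.norm_conj]) (by
    have h1 : (starRingEnd ℂ) z - z₀ = (starRingEnd ℂ) (z - (starRingEnd ℂ) z₀) := by
      rw [map_sub, Complex.conj_conj]
    rw [h1, RCLike.norm_conj]
    exact hd)
  rw [digitSet_image θ (-1) (by norm_num)] at hy
  obtain ⟨x, hx, rfl⟩ := hy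
  refine ⟨x, hx, ?_⟩
  have h2 : e ((-1 : ℝ) * x) = (starRingEnd ℂ) (e x) := by
    rw [neg_one_mul, e_neg]
  simp only at hyz
  rw [h2] at hyz
  have h3 := congrArg (starRingEnd ℂ) hyz
  rwa [Complex.conj_conj, Complex.conj_conj] at h3

/-- **Almost all dilations.** -/
theorem ae_not_sidonOn {θ : ℝ} (h : IsPisot θ) (A : Finset ℝ)
    (hA : ∀ a ∈ A, ∃ p : ℚ[X], aeval θ p = a)
    (harc : ¬ HasArc (e '' digitSet θ (A : Set ℝ))) :
    ∀ᵐ r : ℝ ∂volume, ∀ E : Set ℂ, E ⊆ e '' digitSet θ ((fun a => r * a) '' (A : Set ℝ)) →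
      ¬ SidonOn E := by
  classical
  have h0 : ∀ᵐ r : ℝ ∂volume, r ≠ 0 := by
    rw [ae_iff]
    simp
  filter_upwards [ae_ret_inv h.1, h0] with r hr hr0 E hE
  rcases lt_or_gt_of_ne hr0 with hneg | hpos
  · -- replace `A` by `-A`
    set A' : Finset ℝ := A.image fun a => (-1 : ℝ) * a with hA'
    have hA'c : (A' : Set ℝ) = (fun a => (-1 : ℝ) * a) '' (A : Set ℝ) := by
      rw [hA', Finset.coe_image]
    refine not_sidonOn_dil h A' ?_ ?_ (r := -r) (by linarith) ?_ (E := E) ?_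
    · intro a ha
      obtain ⟨b, hb, rfl⟩ := Finset.mem_image.1 ha
      obtain ⟨p, hp⟩ := hA b hb
      exact ⟨-p, by rw [map_neg, hp]; ring⟩
    · rw [hA'c]
      exact fun h1 => harc (hasArc_neg h1)
    · rw [inv_neg]
      exact hr.neg
    · rw [hA'c, Set.image_image]
      have h1 : (fun a : ℝ => -r * (-1 * a)) = fun a => r * a := by
        funext a
        ring
      rw [h1]
      exact hE
  · exact not_sidonOn_dil h A hA harc hpos hr hE

end Forcing.DP
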