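import Pool.Agent.Lib.MP_c80ac4_an.DP.Defs

/-!
# Row P2 (helper3): if the digit set is a null set, there are few sums of digits

PROOF IN WORDS. Let `X = digitSet θ A`, compact (`isCompact_digitSet`) and not empty (take all digits
equal, or: if `X` is empty then `A` is empty and `Lam` is empty for `n ≥ 1`, in fact for all `n`).
Fix `x0 ∈ X`. For `l ∈ Lam θ A n` the point `θ⁻¹ ^ n * (l + x0)` is in `X` (`mem_split`). For
different `l` these points have distance `≥ c θ⁻¹ ^ n`, so the balls of radius `c θ⁻¹ ^ n / 2` about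
them are pairwise disjoint and contained in `Metric.thickening (c θ⁻¹ ^ n / 2) X`
(or `cthickening`), so (`Lam θ A n` is finite: it is the image of the finite type `Fin n → A`; or
deduce finiteness from the separation and boundedness)
`#(Lam θ A n) * c θ⁻¹ ^ n ≤ volume (cthickening (c θ⁻¹ ^ n) X)`, and the right side tends to
`volume X = 0` (`tendsto_measure_cthickening_of_isCompact`, compactness gives finite measure).
Hence `#(Lam θ A n) / θ ^ n → 0`.
-/

namespace Forcing.DP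

open Filter Topology MeasureTheory Forcing.HM Forcing.Ratio

private theorem p2_finite {θ : ℝ} (A : Finset ℝ) (n : ℕ) : (Lam θ (A : Set ℝ) n).Finite := by
  have h : Lam θ (A : Set ℝ) n ⊆
      Set.range (fun ω : Fin n → A => ∑ j : Fin n, (ω j : ℝ) * θ ^ (n - 1 - (j : ℕ))) := by
    rintro x ⟨d, hd, rfl⟩
    exact ⟨fun j => ⟨d j, Finset.mem_coe.1 (hd j)⟩, by rw [Finset.sum_range]⟩
  exact (Set.finite_range _).subset h

private theorem p2_key {θ : ℝ} (hθ : 1 < θ) (A : Finset ℝ) {c : ℝ} (hc : 0 < c)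
    (hsep : ∀ n, ∀ u ∈ Lam θ (A : Set ℝ) n, ∀ v ∈ Lam θ (A : Set ℝ) n, u ≠ v → c ≤ |u - v|) (n : ℕ) :
    ((Lam θ (A : Set ℝ) n).ncard : ℝ) * (c * θ⁻¹ ^ n) ≤
      (volume (Metric.cthickening (c * θ⁻¹ ^ n) (digitSet θ (A : Set ℝ)))).toReal := by
  have h0 : 0 < θ⁻¹ := inv_pos.2 (by linarith)
  have h1 : θ⁻¹ < 1 := inv_lt_one_of_one_lt₀ hθ
  obtain ⟨r, hr⟩ : ∃ r : ℝ, r = c * θ⁻¹ ^ n := ⟨_, rfl⟩
  rw [← hr]
  have hr0 : 0 < r := by rw [hr]; positivity
  rcases Set.eq_empty_or_nonempty (Lam θ (A : Set ℝ) n) with he | ⟨l0, hl0⟩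
  · rw [he, Set.ncard_empty, Nat.cast_zero, zero_mul]
    exact ENNReal.toReal_nonneg
  obtain ⟨x0, hx0⟩ : (digitSet θ (A : Set ℝ)).Nonempty := by
    obtain ⟨d, hd, _⟩ := hl0
    refine ⟨∑' j : ℕ, d 0 * θ⁻¹ ^ (j + 1), fun _ => d 0, fun _ => hd 0, ?_⟩
    exact (((summable_nat_add_iff 1).2 (summable_geometric_of_lt_one h0.le h1)).mul_left (d 0)).hasSum
  have hfin := p2_finite (θ := θ) A n
  have hcard : (Lam θ (A : Set ℝ) n).ncard = hfin.toFinset.card := Set.ncard_eq_toFinset_card _ hfin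
  have hmem : ∀ l ∈ hfin.toFinset, θ⁻¹ ^ n * (l + x0) ∈ digitSet θ (A : Set ℝ) := fun l hl =>
    (mem_split hθ n).2 ⟨l, hfin.mem_toFinset.1 hl, x0, hx0, rfl⟩
  have hdisj : ((hfin.toFinset : Finset ℝ) : Set ℝ).PairwiseDisjoint
      (fun l => Metric.ball (θ⁻¹ ^ n * (l + x0)) (r / 2)) := by
    intro u hu v hv huv
    refine Metric.ball_disjoint_ball ?_
    rw [Real.dist_eq]
    have e : θ⁻¹ ^ n * (u + x0) - θ⁻¹ ^ n * (v + x0) = θ⁻¹ ^ n * (u - v) := by ring
    have h2 := hsep n u (hfin.mem_toFinset.1 hu) v (hfin.mem_toFinset.1 hv) huv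
    rw [e, abs_mul, abs_of_pos (pow_pos h0 n)]
    calc r / 2 + r / 2 = θ⁻¹ ^ n * c := by rw [hr]; ring
      _ ≤ θ⁻¹ ^ n * |u - v| := mul_le_mul_of_nonneg_left h2 (by positivity)
  have hsub : (⋃ l ∈ hfin.toFinset, Metric.ball (θ⁻¹ ^ n * (l + x0)) (r / 2)) ⊆
      Metric.cthickening r (digitSet θ (A : Set ℝ)) := by
    intro y hy
    simp only [Set.mem_iUnion] at hy
    obtain ⟨l, hl, hy⟩ := hy
    refine Metric.thickening_subset_cthickening _ _ (Metric.mem_thickening_iff.2 ⟨_, hmem l hl, ?_⟩)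
    rw [Metric.mem_ball] at hy
    linarith
  have hvol : volume (⋃ l ∈ hfin.toFinset, Metric.ball (θ⁻¹ ^ n * (l + x0)) (r / 2)) =
      (hfin.toFinset.card : ENNReal) * ENNReal.ofReal r := by
    rw [measure_biUnion_finset hdisj (fun _ _ => Metric.isOpen_ball.measurableSet)]
    simp only [Real.volume_ball]
    rw [Finset.sum_const, nsmul_eq_mul, mul_div_cancel₀ r two_ne_zero]
  have hlt : volume (Metric.cthickening r (digitSet θ (A : Set ℝ))) ≠ ⊤ :=
    ((isCompact_digitSet hθ A).cthickening).measure_lt_top.ne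
  have h3 := ENNReal.toReal_mono hlt (measure_mono hsub)
  rw [hvol, ENNReal.toReal_mul, ENNReal.toReal_natCast, ENNReal.toReal_ofReal hr0.le] at h3
  rw [hcard]
  exact h3

theorem count_small {θ : ℝ} (hθ : 1 < θ) (A : Finset ℝ) {c : ℝ} (hc : 0 < c)
    (hsep : ∀ n, ∀ u ∈ Lam θ (A : Set ℝ) n, ∀ v ∈ Lam θ (A : Set ℝ) n, u ≠ v → c ≤ |u - v|)
    (h0 : volume (digitSet θ (A : Set ℝ)) = 0) :
    Tendsto (fun n => ((Lam θ (A : Set ℝ) n).ncard : ℝ) / θ ^ n) atTop (𝓝 0) := by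
  have hi0 : 0 < θ⁻¹ := inv_pos.2 (by linarith)
  have hi1 : θ⁻¹ < 1 := inv_lt_one_of_one_lt₀ hθ
  have hθ0 : 0 < θ := by linarith
  have hr : Tendsto (fun n : ℕ => c * θ⁻¹ ^ n) atTop (𝓝 0) := by
    have := (tendsto_pow_atTop_nhds_zero_of_lt_one hi0.le hi1).const_mul c
    rwa [mul_zero] at this
  have h2 := (tendsto_measure_cthickening_of_isCompact (μ := volume) (isCompact_digitSet hθ A)).comp hr
  rw [h0] at h2
  have h3 := (ENNReal.tendsto_toReal ENNReal.zero_ne_top).comp h2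
  have h4 := h3.div_const c
  rw [ENNReal.toReal_zero, zero_div] at h4
  refine squeeze_zero (fun n => by positivity) (fun n => ?_) h4
  have key := p2_key hθ A hc hsep n
  show ((Lam θ (A : Set ℝ) n).ncard : ℝ) / θ ^ n ≤
    (volume (Metric.cthickening (c * θ⁻¹ ^ n) (digitSet θ (A : Set ℝ)))).toReal / c
  rw [le_div_iff₀ hc]
  refine le_trans (le_of_eq ?_) key
  rw [inv_pow]
  field_simp

end Forcing.DP
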