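import Pool.Agent.Lib.MP_c80ac4_an.DP.Defs

/-!
# Row P3 (helper3): a digit set of positive measure has an interior point

PROOF IN WORDS. Let `X = digitSet θ A`, compact, `X ⊆ [-B, B]`. Let `x ∈ X` be a density point
(`Besicovitch.ae_tendsto_measure_inter_div` or `IsUnifLocDoublingMeasure...`; exists because
`volume X ≠ 0`): `volume (X ∩ closedBall x r) / volume (closedBall x r) → 1` as `r → 0+`.
(1) For every `ε > 0` and large `n` every `y ∈ [-1, 1]` has a point of `θ ^ n (X - x)` at distance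
`≤ 2 ε`: otherwise some interval of length `≥ ε` contained in `[-1, 1]` is disjoint from
`θ ^ n (X - x)`, so the ratio for `r = θ⁻¹ ^ n` is at most `1 - ε / 2`.
(2) By `mem_split`, `x = θ⁻¹ ^ n (l n + y n)` with `l n ∈ Lam θ A n`, `y n ∈ X`, and every `x' ∈ X`
with `|x' - x| ≤ θ⁻¹ ^ n` is `θ⁻¹ ^ n (l' + y')`. So `θ ^ n (x' - x) = (l' - l n) + y' - y n`, and
`|l' - l n| ≤ 1 + 2 B`, so `l' - l n` is in the finite set `F` of `hfin (1 + 2 B)`.
(3) Take a subsequence with `y n → y` (`X` is compact, `IsCompact.tendsto_subseq`). The set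
`K = ⋃ f ∈ F, (f - y + X)` is closed (finite union of compact sets), and by (1), (2) every point of
`[-1, 1]` is in its closure. So `[-1, 1] ⊆ K`.
(4) A finite union of closed sets with empty interior has empty interior
(`interior_union_isClosed_of_interior_empty`, or Baire: `nonempty_interior_of_iUnion_of_closed` on
the type; `IsClosed.isNowhereDense`), so some translate `f - y + X`, hence `X`, has an interior point.
-/

namespace Forcing.DP

open Filter Topology MeasureTheory

private theorem P3_density {X : Set ℝ} (hX : IsCompact X) (hpos : volume X ≠ 0) :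
    ∃ x ∈ X, Tendsto (fun r => volume (X ∩ Metric.closedBall x r) / volume (Metric.closedBall x r))
      (𝓝[>] 0) (𝓝 1) := by
  have h1 := Besicovitch.ae_tendsto_measure_inter_div (volume : Measure ℝ) X
  have hne : (volume : Measure ℝ).restrict X ≠ 0 := by
    intro h
    rw [Measure.restrict_eq_zero] at h
    exact hpos h
  haveI : NeBot (ae ((volume : Measure ℝ).restrict X)) := ae_neBot.mpr hne
  have h2 : ∀ᵐ x ∂((volume : Measure ℝ).restrict X), x ∈ X := ae_restrict_mem hX.measurableSet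
  obtain ⟨x, hx1, hx2⟩ := (h2.and h1).exists
  exact ⟨x, hx1, hx2⟩

/-- the points of `X` near a density point are dense at every small scale -/
private theorem P3_near {X : Set ℝ} {x : ℝ}
    (hx : Tendsto (fun r => volume (X ∩ Metric.closedBall x r) / volume (Metric.closedBall x r))
      (𝓝[>] 0) (𝓝 1)) {ε : ℝ} (hε : 0 < ε) (hε1 : ε ≤ 1) :
    ∀ᶠ r in 𝓝[>] (0 : ℝ), ∀ y ∈ Set.Icc (-1 : ℝ) 1, ∃ x' ∈ X, |x' - x| ≤ r ∧ |x' - x - r * y| ≤ r * ε := by
  have h1 : ENNReal.ofReal (1 - ε / 2) < 1 := by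
    rw [ENNReal.ofReal_lt_one]
    linarith
  have h2 := hx.eventually (lt_mem_nhds h1)
  filter_upwards [h2, self_mem_nhdsWithin] with r hr hr0 y hy
  have hr0' : 0 < r := hr0
  by_contra hcon
  push Not at hcon
  -- an interval of length `r ε` without points of `X`
  obtain ⟨u, hu1, hu2, hu3⟩ : ∃ u : ℝ, x - r ≤ u ∧ u + r * ε ≤ x + r ∧
      ∀ z ∈ Set.Icc u (u + r * ε), |z - x - r * y| ≤ r * ε := by
    rcases le_total 0 y with h | h
    · refine ⟨x + r * y - r * ε, ?_, ?_, ?_⟩
      · have := mul_nonneg hr0'.le h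
        have h3 : r * ε ≤ r * 1 := mul_le_mul_of_nonneg_left hε1 hr0'.le
        linarith
      · have h3 : r * y ≤ r * 1 := mul_le_mul_of_nonneg_left hy.2 hr0'.le
        linarith
      · intro z hz
        rw [abs_le]
        constructor
        · linarith [hz.1]
        · have := hz.2
          have h4 : 0 ≤ r * ε := by positivity
          linarith
    · refine ⟨x + r * y, ?_, ?_, ?_⟩
      · have h3 : r * (-1) ≤ r * y := mul_le_mul_of_nonneg_left hy.1 hr0'.le
        linarith
      · have h3 : r * y ≤ 0 := mul_nonpos_of_nonneg_of_nonpos hr0'.le h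
        have h4 : r * ε ≤ r * 1 := mul_le_mul_of_nonneg_left hε1 hr0'.le
        linarith
      · intro z hz
        rw [abs_le]
        have h4 : 0 ≤ r * ε := by positivity
        constructor
        · linarith [hz.1]
        · linarith [hz.2]
  have hempty : ∀ z ∈ Set.Icc u (u + r * ε), z ∉ X := by
    intro z hz hzX
    have h4 : 0 ≤ r * ε := by positivity
    have h5 : |z - x| ≤ r := by
      rw [abs_le]
      constructor
      · linarith [hz.1]
      · linarith [hz.2]
    exact absurd (hu3 z hz) (not_le.mpr (hcon z hzX h5))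
  have hsub : X ∩ Metric.closedBall x r ⊆ Set.Icc (x - r) u ∪ Set.Icc (u + r * ε) (x + r) := by
    rintro z ⟨hzX, hzb⟩
    rw [Metric.mem_closedBall, Real.dist_eq, abs_le] at hzb
    by_cases h5 : z ≤ u
    · left
      exact ⟨by linarith [hzb.1], h5⟩
    · right
      refine ⟨?_, by linarith [hzb.2]⟩
      by_contra h6
      exact hempty z ⟨(not_le.mp h5).le, (not_le.mp h6).le⟩ hzX
  have hvol : volume (X ∩ Metric.closedBall x r) ≤ ENNReal.ofReal (2 * r - r * ε) := by
    calc volume (X ∩ Metric.closedBall x r) ≤ volume (Set.Icc (x - r) u ∪ Set.Icc (u + r * ε) (x + r)) :=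
          measure_mono hsub
      _ ≤ volume (Set.Icc (x - r) u) + volume (Set.Icc (u + r * ε) (x + r)) := measure_union_le _ _
      _ = ENNReal.ofReal (2 * r - r * ε) := by
        rw [Real.volume_Icc, Real.volume_Icc, ← ENNReal.ofReal_add (by linarith) (by linarith)]
        congr 1
        ring
  have hball : volume (Metric.closedBall x r) = ENNReal.ofReal (2 * r) := Real.volume_closedBall x r
  rw [hball] at hr
  have h7 : volume (X ∩ Metric.closedBall x r) / ENNReal.ofReal (2 * r) ≤ ENNReal.ofReal (1 - ε / 2) := by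
    rw [ENNReal.div_le_iff (by simp [hr0']) ENNReal.ofReal_ne_top]
    refine hvol.trans (le_of_eq ?_)
    rw [← ENNReal.ofReal_mul (by linarith)]
    congr 1
    ring
  exact absurd hr (not_lt.mpr h7)

private theorem P3_union (F : Finset ℝ) (T : ℝ → Set ℝ) (hT : ∀ f ∈ F, IsClosed (T f))
    (hi : ∀ f ∈ F, interior (T f) = ∅) : interior (⋃ f ∈ F, T f) = ∅ := by
  classical
  induction F using Finset.induction_on with
  | empty => simp
  | insert a s ha ih =>
    rw [Finset.set_biUnion_insert]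
    have h1 := ih (fun f hf => hT f (Finset.mem_insert_of_mem hf)) (fun f hf => hi f (Finset.mem_insert_of_mem hf))
    rw [interior_union_isClosed_of_interior_empty (hT a (Finset.mem_insert_self a s)) h1]
    exact hi a (Finset.mem_insert_self a s)

theorem interior_of_pos {θ : ℝ} (hθ : 1 < θ) (A : Finset ℝ)
    (hfin : ∀ R : ℝ, {x : ℝ | |x| ≤ R ∧ ∃ n, ∃ u ∈ Lam θ (A : Set ℝ) n,
      ∃ v ∈ Lam θ (A : Set ℝ) n, x = u - v}.Finite)
    (hpos : volume (digitSet θ (A : Set ℝ)) ≠ 0) :
    (interior (digitSet θ (A : Set ℝ))).Nonempty := by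
  set X : Set ℝ := digitSet θ (A : Set ℝ) with hX
  have hXc : IsCompact X := isCompact_digitSet hθ A
  obtain ⟨B, hB⟩ : ∃ B : ℝ, ∀ y ∈ X, |y| ≤ B := by
    obtain ⟨B, hB⟩ := hXc.isBounded.exists_norm_le
    exact ⟨B, fun y hy => by simpa [Real.norm_eq_abs] using hB y hy⟩
  obtain ⟨x, hxX, hx⟩ := P3_density hXc hpos
  have hθ0 : 0 < θ := by linarith
  -- digits of `x`
  have hsplit : ∀ n, ∃ l ∈ Lam θ (A : Set ℝ) n, ∃ y ∈ X, x = θ⁻¹ ^ n * (l + y) :=
    fun n => (mem_split hθ n).1 hxX
  choose l hl y hy hxy using hsplit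
  obtain ⟨y0, hy0, φ, hφ, hlim⟩ := hXc.tendsto_subseq hy
  set F : Finset ℝ := (hfin (1 + 2 * B)).toFinset with hF
  let T : ℝ → Set ℝ := fun f => (fun z => (f - y0) + z) '' X
  have hTc : ∀ f, IsCompact (T f) := fun f => hXc.image (by fun_prop)
  have hKc : IsClosed (⋃ f ∈ F, T f) := by
    refine Set.Finite.isClosed_biUnion F.finite_toSet fun f _ => (hTc f).isClosed
  have hcover : Set.Icc (-1 : ℝ) 1 ⊆ ⋃ f ∈ F, T f := by
    intro w hw
    rw [← hKc.closure_eq, Metric.mem_closure_iff]
    intro ε hε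
    set δ : ℝ := min (ε / 3) 1 with hδ
    have hδ0 : 0 < δ := by
      rw [hδ]
      exact lt_min (by linarith) one_pos
    have hδ1 : δ ≤ 1 := min_le_right _ _
    have hδ3 : δ ≤ ε / 3 := min_le_left _ _
    have h1 := P3_near hx hδ0 hδ1
    have h2 : Tendsto (fun n : ℕ => θ⁻¹ ^ (φ n)) atTop (𝓝[>] 0) := by
      refine tendsto_nhdsWithin_iff.mpr ⟨?_, Eventually.of_forall fun n => ?_⟩
      · exact (tendsto_pow_atTop_nhds_zero_of_lt_one (by positivity) (inv_lt_one_of_one_lt₀ hθ)).comp
          hφ.tendsto_atTop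
      · simp only [Set.mem_Ioi]
        positivity
    have h3 := h2.eventually h1
    have h4 : ∀ᶠ n in atTop, dist (y (φ n)) y0 < δ := Metric.tendsto_nhds.mp hlim δ hδ0
    obtain ⟨n, hn1, hn2⟩ := (h3.and h4).exists
    obtain ⟨x', hx'X, hx'1, hx'2⟩ := hn1 w hw
    obtain ⟨l', hl', y', hy', hxy'⟩ := (mem_split hθ (φ n)).1 hx'X
    have hr : 0 < θ⁻¹ ^ (φ n) := by positivity
    have hdiff : x' - x = θ⁻¹ ^ (φ n) * ((l' - l (φ n)) + (y' - y (φ n))) := by
      rw [hxy']
      conv_lhs => rw [hxy (φ n)]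
      ring
    have h5 : |(l' - l (φ n)) + (y' - y (φ n))| ≤ 1 := by
      rw [hdiff, abs_mul, abs_of_pos hr] at hx'1
      have := le_of_mul_le_mul_left (hx'1.trans (le_of_eq (mul_one _).symm)) hr
      exact this
    have h6 : |(l' - l (φ n)) + (y' - y (φ n)) - w| ≤ δ := by
      have h7 : x' - x - θ⁻¹ ^ (φ n) * w = θ⁻¹ ^ (φ n) * ((l' - l (φ n)) + (y' - y (φ n)) - w) := by
        rw [hdiff]
        ring
      rw [h7, abs_mul, abs_of_pos hr] at hx'2
      exact le_of_mul_le_mul_left hx'2 hr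
    have hmem : l' - l (φ n) ∈ F := by
      rw [hF, Set.Finite.mem_toFinset]
      refine ⟨?_, φ n, l', hl', l (φ n), hl _, rfl⟩
      have h8 := hB y' hy'
      have h9 := hB _ (hy (φ n))
      rw [abs_le] at h5 h8 h9 ⊢
      constructor <;> linarith [h5.1, h5.2, h8.1, h8.2, h9.1, h9.2]
    refine ⟨(l' - l (φ n)) - y0 + y', ?_, ?_⟩
    · simp only [Set.mem_iUnion]
      exact ⟨l' - l (φ n), hmem, y', hy', rfl⟩
    · rw [Real.dist_eq]
      rw [Real.dist_eq] at hn2
      rw [abs_le] at h6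
      rw [abs_lt] at hn2 ⊢
      constructor <;> linarith [h6.1, h6.2, hn2.1, hn2.2]
  by_contra hno
  rw [Set.not_nonempty_iff_eq_empty] at hno
  have hTi : ∀ f ∈ F, interior (T f) = ∅ := by
    intro f _
    have h1 : T f = (Homeomorph.addLeft (f - y0)) '' X := rfl
    rw [h1, ← Homeomorph.image_interior, hno, Set.image_empty]
  have h1 := P3_union F T (fun f _ => (hTc f).isClosed) hTi
  have h2 : interior (Set.Icc (-1 : ℝ) 1) ⊆ interior (⋃ f ∈ F, T f) := interior_mono hcover
  rw [h1, interior_Icc] at h2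
  exact h2 (show (0 : ℝ) ∈ Set.Ioo (-1 : ℝ) 1 from ⟨by norm_num, by norm_num⟩)

end Forcing.DP
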