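import Pool.Agent.Lib.MP_c80ac4_an.DP.Defs
import Pool.Agent.Lib.MP_c80ac4_an.HM.Pisot

/-! # Joint power images of digit sets of Pisot numbers with few sums of digits -/

namespace Forcing.DP

open Polynomial Filter Topology Forcing.HM Forcing.Ratio

theorem lam_finite (θ : ℝ) (A : Finset ℝ) (n : ℕ) : (Lam θ (A : Set ℝ) n).Finite := by
  have h1 : Lam θ (A : Set ℝ) n ⊆ Set.range fun d : Fin n → A =>
      ∑ j : Fin n, (d j : ℝ) * θ ^ (n - 1 - (j : ℕ)) := by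
    rintro x ⟨d, hd, rfl⟩
    refine ⟨fun j => ⟨d j, Finset.mem_coe.1 (hd j)⟩, ?_⟩
    exact (Finset.sum_range fun j => d j * θ ^ (n - 1 - j)).symm
  exact (Set.finite_range _).subset h1

/-- **Digit sets of Pisot numbers.** -/
theorem misses_pisot' {θ : ℝ} (h : IsPisot θ) (D : Finset ℝ)
    (hD : ∀ d ∈ D, ∃ p : ℤ[X], aeval θ p = d)
    (hcard : Tendsto (fun n => ((Lam θ (D : Set ℝ) n).ncard : ℝ) / θ ^ n) atTop (𝓝 0)) :
    ∃ (m : ℕ) (w : Fin m → ℂ) (η : ℝ),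
      (∀ j : Fin m → ℤ, ∑ i : Fin m, (j i : ℝ) * θ ^ (i : ℕ) = 0 → j = 0) ∧
      (∀ i, ‖w i‖ = 1) ∧ 0 < η ∧
      Misses (fun i : Fin m => θ ^ (i : ℕ)) w η (e '' digitSet θ (D : Set ℝ)) := by
  classical
  have hθ : 1 < θ := h.1
  obtain ⟨m, N, A, C, r, hm, hC, hr0, hr1, hN, hA, hNA, hind⟩ := exists_data h
  refine ⟨m, ?_⟩
  by_contra hcon
  push Not at hcon
  set β : ℝ := θ⁻¹ with hβ
  have hβ0 : 0 < β := by rw [hβ]; positivity
  have hβ1 : β < 1 := inv_lt_one_of_one_lt₀ hθ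
  have hθβ : θ * β = 1 := mul_inv_cancel₀ (by positivity)
  have hG : 0 < (1 - β)⁻¹ := inv_pos.2 (by linarith)
  -- digits
  have hI : ∀ d ∈ D, ∃ (I : ℕ → ℤ) (C' : ℝ), 0 ≤ C' ∧ ∀ s, |(I s : ℝ) - d * θ ^ s| ≤ C' * r ^ s := by
    intro d hd
    obtain ⟨p, rfl⟩ := hD d hd
    exact digit_approx hC hr0 hr1 hN p
  choose! I C' hC'0 hI using hI
  set CD : ℝ := ∑ d ∈ D, C' d with hCD
  have hCD0 : 0 ≤ CD := Finset.sum_nonneg fun d hd => hC'0 d hd
  set B : ℝ := ∑ d ∈ D, |d| with hB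
  have hB0 : 0 ≤ B := Finset.sum_nonneg fun d _ => abs_nonneg _
  have hDB : ∀ d ∈ D, |d| ≤ B := fun d hd =>
    Finset.single_le_sum (f := fun d => |d|) (fun d _ => abs_nonneg _) hd
  have hDI : ∀ d ∈ D, ∃ I : ℕ → ℤ, ∀ s, |(I s : ℝ) - d * θ ^ s| ≤ CD * r ^ s := fun d hd =>
    ⟨I d, fun s => (hI d hd s).trans (mul_le_mul_of_nonneg_right
      (Finset.single_le_sum (f := C') (fun d hd => hC'0 d hd) hd) (pow_nonneg hr0 _))⟩
  -- the length of the neighbourhood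
  have hθ32 : 0 < 1 / (64 * θ) := by positivity
  obtain ⟨r0, hr0'⟩ : ∃ r0 : ℕ, CD * (1 - r)⁻¹ * r ^ r0 +
      (1 + C) * B * (1 - β)⁻¹ * β ^ r0 ≤ 1 / (64 * θ) := by
    have h1 := (tendsto_pow_atTop_nhds_zero_of_lt_one hr0 hr1).const_mul (CD * (1 - r)⁻¹)
    have h2 := (tendsto_pow_atTop_nhds_zero_of_lt_one hβ0.le hβ1).const_mul
      ((1 + C) * B * (1 - β)⁻¹)
    have h3 := h1.add h2
    rw [mul_zero, mul_zero, add_zero] at h3
    exact (h3.eventually_le_const hθ32).exists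
  have hK : ∀ᶠ k : ℕ in atTop, C * B * (1 - β)⁻¹ * r ^ k ≤ 1 / (64 * θ) := by
    have h1 := (tendsto_pow_atTop_nhds_zero_of_lt_one hr0 hr1).const_mul (C * B * (1 - β)⁻¹)
    rw [mul_zero] at h1
    exact h1.eventually_le_const hθ32
  -- the length of the orbits
  obtain ⟨n, hn⟩ : ∃ n : ℕ, ((Lam θ (D : Set ℝ) (n + 2 * r0)).ncard : ℝ) ≤ θ ^ n := by
    have h1 := (tendsto_add_atTop_iff_nat (2 * r0)).2 hcard
    obtain ⟨n, hn⟩ := (h1.eventually_le_const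
      (show (0 : ℝ) < (θ ^ (2 * r0))⁻¹ by positivity)).exists
    refine ⟨n, ?_⟩
    rw [div_le_iff₀ (by positivity), pow_add, mul_comm (θ ^ n), ← mul_assoc,
      inv_mul_cancel₀ (by positivity), one_mul] at hn
    exact hn
  have hθn : 0 < θ ^ n := by positivity
  set Q : ℕ := ⌊θ ^ n⌋₊ + 1 with hQ
  have hQ1 : (Lam θ (D : Set ℝ) (n + 2 * r0)).ncard < Q := Nat.lt_succ_of_le (Nat.le_floor hn)
  -- the targets
  set t : Fin Q → ℝ := fun q => (q : ℕ) * (1 / 4 * β ^ n) with ht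
  have htq : ∀ q : Fin Q, t q = ((q : ℕ) : ℝ) * (1 / 4 * β ^ n) := fun q => rfl
  clear_value t
  have hβθn : β ^ n * θ ^ n = 1 := by rw [← mul_pow, mul_comm β θ, hθβ, one_pow]
  have ht0 : ∀ q, 0 ≤ t q ∧ t q ≤ 1 / 4 := by
    intro q
    rw [htq]
    refine ⟨by positivity, ?_⟩
    have h1 : ((q : ℕ) : ℝ) ≤ θ ^ n := by
      have h2 : (q : ℕ) ≤ ⌊θ ^ n⌋₊ := by have := q.2; omega
      have h3 : ((q : ℕ) : ℝ) ≤ (⌊θ ^ n⌋₊ : ℝ) := by exact_mod_cast h2
      exact h3.trans (Nat.floor_le hθn.le)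
    have h4 : 0 < β ^ n := by positivity
    calc ((q : ℕ) : ℝ) * (1 / 4 * β ^ n) ≤ θ ^ n * (1 / 4 * β ^ n) := by gcongr
      _ = 1 / 4 * (β ^ n * θ ^ n) := by ring
      _ = 1 / 4 := by rw [hβθn, mul_one]
  have htdiff : ∀ q q' : Fin Q, q ≠ q' → 1 / 4 * β ^ n ≤ |t q - t q'| := by
    intro q q' hne
    have h1 : (1 : ℝ) ≤ |((q : ℕ) : ℝ) - ((q' : ℕ) : ℝ)| := by
      have h2 : (1 : ℤ) ≤ |((q : ℕ) : ℤ) - ((q' : ℕ) : ℤ)| := by
        refine Int.one_le_abs ?_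
        intro h3
        apply hne
        ext
        omega
      exact_mod_cast h2
    have h4 : 0 < 1 / 4 * β ^ n := by positivity
    rw [htq, htq, ← sub_mul, abs_mul, abs_of_pos h4]
    exact le_mul_of_one_le_left h4.le h1
  set SA : ℝ := 1 + ∑ i ∈ Finset.range (n + 1), ∑ l, |(A i l : ℝ)| with hSA
  have hSA1 : 1 ≤ SA := by
    have : 0 ≤ ∑ i ∈ Finset.range (n + 1), ∑ l, |(A i l : ℝ)| :=
      Finset.sum_nonneg fun _ _ => Finset.sum_nonneg fun _ _ => abs_nonneg _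
    linarith
  have hSAi : ∀ i ≤ n, ∑ l, |(A i l : ℝ)| ≤ SA := by
    intro i hi
    have h1 := Finset.single_le_sum (f := fun i => ∑ l, |(A i l : ℝ)|)
      (fun i _ => Finset.sum_nonneg fun _ _ => abs_nonneg _)
      (Finset.mem_range.2 (Nat.lt_succ_of_le hi))
    linarith
  set η : ℝ := 1 / (16 * θ * SA) with hη
  have hη0 : 0 < η := by positivity
  have htarget : ∀ q : Fin Q, ∃ κ R : ℝ, 0 < κ ∧ ∀ (ν : Fin m → ℤ) (s : ℝ), R ≤ s →
      (∀ i : Fin m, |(ν i : ℝ) - s * θ ^ (i : ℕ)| ≤ κ * s) →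
      ∃ z ∈ e '' digitSet θ (D : Set ℝ), ∀ i : Fin m, ‖z ^ ν i - e (t q * θ ^ (i : ℕ))‖ < η := by
    intro q
    have h1 := hcon (fun i : Fin m => e (t q * θ ^ (i : ℕ))) η hind (fun i => norm_e _) hη0
    unfold Misses at h1
    push Not at h1
    obtain ⟨κ, R, hκ, h2⟩ := h1
    exact ⟨κ, R, hκ, h2⟩
  choose κ R hκ hhit using htarget
  -- the choice of k
  obtain ⟨k, hk1, hk2, hk3⟩ : ∃ k : ℕ, r0 ≤ k ∧ C * B * (1 - β)⁻¹ * r ^ k ≤ 1 / (64 * θ) ∧
      ∀ q : Fin Q, R q ≤ θ ^ k ∧ C * r ^ k ≤ κ q := by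
    have h1 : ∀ᶠ k : ℕ in atTop, ∀ q : Fin Q, R q ≤ θ ^ k ∧ C * r ^ k ≤ κ q := by
      rw [Filter.eventually_all]
      intro q
      have h2 := (tendsto_pow_atTop_nhds_zero_of_lt_one hr0 hr1).const_mul C
      rw [mul_zero] at h2
      exact ((tendsto_pow_atTop_atTop_of_one_lt hθ).eventually_ge_atTop (R q)).and
        (h2.eventually_le_const (hκ q))
    obtain ⟨k, h2, h3, h4⟩ := ((eventually_ge_atTop r0).and (hK.and h1)).exists
    exact ⟨k, h2, h3, h4⟩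
  have hz : ∀ q : Fin Q, ∃ (x : ℝ) (d : ℕ → ℝ), (∀ j, d j ∈ (D : Set ℝ)) ∧
      HasSum (fun j => d j * θ⁻¹ ^ (j + 1)) x ∧
      ∀ i : Fin m, ‖e ((N (k + i) : ℝ) * x) - e (t q * θ ^ (i : ℕ))‖ < η := by
    intro q
    obtain ⟨z, ⟨x, ⟨d, hd, hx⟩, rfl⟩, hz⟩ := hhit q (fun i => N (k + i)) (θ ^ k) (hk3 q).1
      fun i => by
        rw [← pow_add]
        have hθk : 1 ≤ θ ^ k := one_le_pow₀ hθ.le
        calc |(N (k + i) : ℝ) - θ ^ (k + (i : ℕ))| ≤ C * r ^ (k + (i : ℕ)) := hN _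
          _ ≤ C * r ^ k := mul_le_mul_of_nonneg_left
              (pow_le_pow_of_le_one hr0 hr1.le (Nat.le_add_right _ _)) hC
          _ ≤ κ q * θ ^ k := (hk3 q).2.trans (le_mul_of_one_le_right (hκ q).le hθk)
    refine ⟨x, d, hd, hx, fun i => ?_⟩
    rw [← e_zpow]
    exact hz i
  choose x d hd hx hclose using hz
  -- pigeonhole
  set val : Fin Q → ℝ := fun q =>
    ∑ j ∈ Finset.range (n + 2 * r0), d q (k - r0 + j) * θ ^ (n + 2 * r0 - 1 - j) with hval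
  have hvalmem : ∀ q, val q ∈ Lam θ (D : Set ℝ) (n + 2 * r0) := fun q =>
    ⟨fun j => d q (k - r0 + j), fun j => hd q _, rfl⟩
  obtain ⟨q, -, q', -, hne, hqq⟩ := Finset.exists_ne_map_eq_of_card_lt_of_maps_to
    (s := (Finset.univ : Finset (Fin Q))) (t := (lam_finite θ D (n + 2 * r0)).toFinset) (f := val)
    (by
      rw [Finset.card_univ, Fintype.card_fin, ← Set.ncard_eq_toFinset_card _ (lam_finite θ D _)]
      exact hQ1) (fun q _ => by
      rw [Set.Finite.coe_toFinset]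
      exact hvalmem q)
  -- the separating time
  set Δ : ℝ := t q - t q' with hΔ
  have hΔ1 : 1 / 4 * β ^ n ≤ |Δ| := htdiff q q' hne
  have hΔ2 : |Δ| ≤ 1 / 4 := by
    rw [abs_le]
    constructor <;> linarith [(ht0 q).1, (ht0 q).2, (ht0 q').1, (ht0 q').2]
  have hex : ∃ i : ℕ, 1 / (4 * θ) ≤ |Δ| * θ ^ i := by
    refine ⟨n, ?_⟩
    have h1 : 1 / 4 ≤ |Δ| * θ ^ n := by
      calc (1 : ℝ) / 4 = 1 / 4 * β ^ n * θ ^ n := by rw [mul_assoc, hβθn, mul_one]
        _ ≤ |Δ| * θ ^ n := mul_le_mul_of_nonneg_right hΔ1 hθn.le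
    refine le_trans ?_ h1
    rw [div_le_div_iff₀ (by positivity) (by norm_num)]
    linarith
  have hexn : 1 / (4 * θ) ≤ |Δ| * θ ^ n := by
    have h1 : 1 / 4 ≤ |Δ| * θ ^ n := by
      calc (1 : ℝ) / 4 = 1 / 4 * β ^ n * θ ^ n := by rw [mul_assoc, hβθn, mul_one]
        _ ≤ |Δ| * θ ^ n := mul_le_mul_of_nonneg_right hΔ1 hθn.le
    refine le_trans ?_ h1
    rw [div_le_div_iff₀ (by positivity) (by norm_num)]
    linarith
  set i : ℕ := Nat.find hex with hi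
  have hi1 : 1 / (4 * θ) ≤ |Δ| * θ ^ i := Nat.find_spec hex
  have hin : i ≤ n := Nat.find_min' hex hexn
  have hi2 : |Δ| * θ ^ i ≤ 1 / 4 := by
    rcases Nat.eq_zero_or_pos i with h0 | h0
    · rw [h0, pow_zero, mul_one]
      exact hΔ2
    · have h1 : ¬ 1 / (4 * θ) ≤ |Δ| * θ ^ (i - 1) := Nat.find_min hex (by omega)
      push Not at h1
      have h2 : θ ^ i = θ ^ (i - 1) * θ := by
        rw [← pow_succ]
        congr 1
        omega
      rw [h2, ← mul_assoc]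
      have h3 : |Δ| * θ ^ (i - 1) * θ < 1 / (4 * θ) * θ :=
        mul_lt_mul_of_pos_right h1 (by linarith)
      have h4 : 1 / (4 * θ) * θ = 1 / 4 := by
        field_simp
      linarith
  have hsep : 1 / θ ≤ ‖e (t q * θ ^ i) - e (t q' * θ ^ i)‖ := by
    have h1 : e (t q * θ ^ i) - e (t q' * θ ^ i) = e (t q' * θ ^ i) * (e (Δ * θ ^ i) - 1) := by
      have h2 : t q * θ ^ i = t q' * θ ^ i + Δ * θ ^ i := by rw [hΔ]; ring
      rw [h2, e_add]
      ring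
    rw [h1, norm_mul, norm_e, one_mul]
    have h3 : |Δ * θ ^ i| = |Δ| * θ ^ i := by
      rw [abs_mul, abs_of_pos (by positivity : 0 < θ ^ i)]
    have h4 := four_mul_le (y := Δ * θ ^ i) (by rw [h3]; linarith)
    rw [h3] at h4
    refine le_trans ?_ h4
    have h5 : 1 / θ = 4 * (1 / (4 * θ)) := by field_simp
    rw [h5]
    linarith
  -- closeness along the orbit
  have horb : ∀ q : Fin Q, ‖e ((N (k + i) : ℝ) * x q) - e (t q * θ ^ i)‖ ≤ 1 / (16 * θ) := by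
    intro q
    have h1 : e ((N (k + i) : ℝ) * x q) = ∏ l : Fin m, e ((N (k + l) : ℝ) * x q) ^ A i l := by
      have h2 : (N (k + i) : ℝ) * x q = ∑ l : Fin m, (A i l : ℝ) * ((N (k + l) : ℝ) * x q) := by
        rw [hNA k i]
        push_cast
        rw [Finset.sum_mul]
        exact Finset.sum_congr rfl fun l _ => by ring
      rw [h2, e_sum]
      exact Finset.prod_congr rfl fun l _ => (e_zpow _ _).symm
    have h2 : e (t q * θ ^ i) = ∏ l : Fin m, e (t q * θ ^ (l : ℕ)) ^ A i l := by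
      have h3 : t q * θ ^ i = ∑ l : Fin m, (A i l : ℝ) * (t q * θ ^ (l : ℕ)) := by
        rw [hA i, Finset.mul_sum]
        exact Finset.sum_congr rfl fun l _ => by ring
      rw [h3, e_sum]
      exact Finset.prod_congr rfl fun l _ => (e_zpow _ _).symm
    rw [h1, h2]
    refine (norm_prod_sub_le _ (fun l _ => by rw [norm_zpow, norm_e, one_zpow])
      fun l _ => by rw [norm_zpow, norm_e, one_zpow]).trans ?_
    calc ∑ l : Fin m, ‖e ((N (k + l) : ℝ) * x q) ^ A i l - e (t q * θ ^ (l : ℕ)) ^ A i l‖ ≤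
          ∑ l : Fin m, |(A i l : ℝ)| * η := by
          refine Finset.sum_le_sum fun l _ => (norm_zpow_sub_le (norm_e _) (norm_e _) _).trans ?_
          exact mul_le_mul_of_nonneg_left (hclose q l).le (abs_nonneg _)
      _ = (∑ l : Fin m, |(A i l : ℝ)|) * η := by rw [Finset.sum_mul]
      _ ≤ SA * η := mul_le_mul_of_nonneg_right (hSAi i hin) hη0.le
      _ = 1 / (16 * θ) := by
          rw [hη]
          field_simp
  have hloc : ∀ q : Fin Q, ‖e ((N (k + i) : ℝ) * x q) -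
      e ((N (k + i) : ℝ) * ∑ j ∈ Finset.Ico (k - r0) (k + n + r0), d q j * β ^ (j + 1))‖ ≤
      1 / (4 * θ) := by
    intro q
    have h1 := local_digits hθ hC hr0 hr1 hN hB0 hCD0 (hx q) (fun j => hDB _ (hd q j))
      (fun j => hDI _ (hd q j)) hk1 hin
    refine h1.trans ?_
    have h2 : CD * (1 - r)⁻¹ * r ^ r0 + C * B * (1 - β)⁻¹ * r ^ k +
        (1 + C) * B * (1 - β)⁻¹ * β ^ r0 ≤ 1 / (32 * θ) := by
      have h3 : 1 / (32 * θ) = 1 / (64 * θ) + 1 / (64 * θ) := by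
        field_simp
        norm_num
      rw [h3]
      linarith
    have h4 := Real.pi_lt_d2
    have h5 := Real.pi_pos
    calc 2 * Real.pi * (CD * (1 - r)⁻¹ * r ^ r0 + C * B * (1 - β)⁻¹ * r ^ k +
        (1 + C) * B * (1 - β)⁻¹ * β ^ r0) ≤ 2 * Real.pi * (1 / (32 * θ)) := by
          gcongr
      _ ≤ 8 * (1 / (32 * θ)) := by
          refine mul_le_mul_of_nonneg_right (by linarith) (by positivity)
      _ = 1 / (4 * θ) := by
          field_simp
          norm_num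
  have hmid0 : ∀ q : Fin Q, ∑ j ∈ Finset.Ico (k - r0) (k + n + r0), d q j * β ^ (j + 1) =
      β ^ (k + n + r0) * val q := by
    intro q
    have h1 : k + n + r0 = (k - r0) + (n + 2 * r0) := by omega
    rw [h1, Finset.sum_Ico_eq_sum_range, ← h1, Finset.mul_sum]
    have h2 : k + n + r0 - (k - r0) = n + 2 * r0 := by omega
    rw [h2]
    refine Finset.sum_congr rfl fun j hj => ?_
    rw [Finset.mem_range] at hj
    have h3 : k + n + r0 = (k - r0 + j + 1) + (n + 2 * r0 - 1 - j) := by omega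
    have h4 : β ^ (k + n + r0) * θ ^ (n + 2 * r0 - 1 - j) = β ^ (k - r0 + j + 1) := by
      rw [h3, pow_add, mul_assoc, ← mul_pow, mul_comm β θ, hθβ, one_pow, mul_one]
    rw [← h4]
    ring
  have hmid : ∑ j ∈ Finset.Ico (k - r0) (k + n + r0), d q j * β ^ (j + 1) =
      ∑ j ∈ Finset.Ico (k - r0) (k + n + r0), d q' j * β ^ (j + 1) := by
    rw [hmid0, hmid0, hqq]
  have h1 := hloc q
  have h2 := hloc q'
  rw [← hmid] at h2
  have h3 := horb q
  have h4 := horb q'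
  have h5 : e (t q * θ ^ i) - e (t q' * θ ^ i) =
      -(e ((N (k + i) : ℝ) * x q) - e (t q * θ ^ i)) +
      (e ((N (k + i) : ℝ) * x q) -
        e ((N (k + i) : ℝ) * ∑ j ∈ Finset.Ico (k - r0) (k + n + r0), d q j * β ^ (j + 1))) -
      (e ((N (k + i) : ℝ) * x q') -
        e ((N (k + i) : ℝ) * ∑ j ∈ Finset.Ico (k - r0) (k + n + r0), d q j * β ^ (j + 1))) +
      (e ((N (k + i) : ℝ) * x q') - e (t q' * θ ^ i)) := by ring
  rw [h5] at hsep
  have h6 := hsep.trans ((norm_add_le _ _).trans (add_le_add ((norm_sub_le _ _).trans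
    (add_le_add (norm_add_le _ _) le_rfl)) le_rfl))
  rw [norm_neg] at h6
  have h7 : 1 / θ = 1 / (16 * θ) + 1 / (4 * θ) + 1 / (4 * θ) + 1 / (16 * θ) + 3 / (8 * θ) := by
    field_simp
    norm_num
  have h8 : 0 < 3 / (8 * θ) := by positivity
  linarith

end Forcing.DP
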