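import Pool.Agent.Lib.MP_c80ac4_an.DP.P1
import Pool.Agent.Lib.MP_c80ac4_an.DP.P2
import Pool.Agent.Lib.MP_c80ac4_an.DP.P3
import Pool.Agent.Lib.MP_c80ac4_an.DP.P4
import Pool.Agent.Lib.MP_c80ac4_an.DW.Dich3

/-! # The dichotomy for all finite digit sets, with overlaps -/

namespace Forcing.DP

open Forcing.Ratio Forcing.HM Polynomial Metric IntermediateField Filter Topology MeasureTheory

/-- `E` contains an arc of the unit circle. -/
def HasArc (E : Set ℂ) : Prop :=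
  ∃ z₀ : ℂ, ‖z₀‖ = 1 ∧ ∃ ε : ℝ, 0 < ε ∧ ∀ z : ℂ, ‖z‖ = 1 → ‖z - z₀‖ < ε → z ∈ E

theorem sidonOn_of_hasArc {E : Set ℂ} (h : HasArc E) : SidonOn E := by
  obtain ⟨z₀, hz₀, ε, hε, h⟩ := h
  obtain ⟨x₀, rfl⟩ := exists_e hz₀
  intro q hq
  obtain ⟨N, C, h1⟩ := sidonIneq_arc q (ε / 2) hq (by positivity)
  refine ⟨N, C, (h1 (2 * Real.pi * x₀) (2 * Real.pi * x₀ + ε / 2) (by linarith)).mono ?_⟩
  rintro z ⟨t, ht, rfl⟩
  refine h _ (Complex.norm_exp_ofReal_mul_I t) ?_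
  have h2 : Complex.exp (t * Complex.I) = e (t / (2 * Real.pi)) := exp_eq_e t
  rw [h2]
  refine (e_sub_le _ _).trans_lt ?_
  have hpi := Real.pi_pos
  have h3 : t / (2 * Real.pi) - x₀ = (t - 2 * Real.pi * x₀) / (2 * Real.pi) := by
    field_simp
  rw [h3, abs_div, abs_of_pos (by positivity : 0 < 2 * Real.pi)]
  have h4 : 2 * Real.pi * (|t - 2 * Real.pi * x₀| / (2 * Real.pi)) = |t - 2 * Real.pi * x₀| := by
    field_simp
  rw [h4, abs_lt]
  constructor <;> linarith [ht.1, ht.2]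

theorem hasArc_of_interior {X : Set ℝ} (h : (interior X).Nonempty) : HasArc (e '' X) := by
  obtain ⟨x₀, hx₀⟩ := h
  obtain ⟨δ, hδ, hb⟩ := Metric.isOpen_iff.1 isOpen_interior x₀ hx₀
  refine ⟨e x₀, norm_e _, 4 * δ, by positivity, fun z hz hzd => ?_⟩
  obtain ⟨x, rfl⟩ := exists_e hz
  set s : ℝ := x - x₀ - round (x - x₀) with hs
  have hs1 : |s| ≤ 1 / 2 := abs_sub_round _
  have h1 : e x = e (x₀ + s) := by
    rw [hs, show x₀ + (x - x₀ - round (x - x₀)) = x - round (x - x₀) by ring]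
    exact (e_sub_int _ _).symm
  have h2 := four_mul_le hs1
  have h3 : e x - e x₀ = e x₀ * (e s - 1) := by
    rw [h1, e_add]
    ring
  rw [h3, norm_mul, norm_e, one_mul] at hzd
  refine ⟨x₀ + s, interior_subset (hb ?_), h1.symm⟩
  rw [Metric.mem_ball, Real.dist_eq, add_sub_cancel_left]
  linarith

theorem digitSet_image (θ M : ℝ) (hM : M ≠ 0) (A : Set ℝ) :
    digitSet θ ((fun a => M * a) '' A) = (fun x => M * x) '' digitSet θ A := by
  ext x
  constructor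
  · rintro ⟨d, hd, hx⟩
    refine ⟨M⁻¹ * x, ⟨fun j => M⁻¹ * d j, fun j => ?_, ?_⟩, ?_⟩
    · obtain ⟨a, ha, h⟩ := hd j
      show M⁻¹ * d j ∈ A
      rw [← h]
      show M⁻¹ * (M * a) ∈ A
      rw [inv_mul_cancel_left₀ hM]
      exact ha
    · refine (hx.mul_left M⁻¹).congr_fun ?_
      intro j
      ring
    · simp only
      rw [mul_inv_cancel_left₀ hM]
  · rintro ⟨y, ⟨d, hd, hy⟩, rfl⟩
    refine ⟨fun j => M * d j, fun j => ⟨d j, hd j, rfl⟩, ?_⟩
    refine (hy.mul_left M).congr_fun ?_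
    intro j
    ring

/-- **Digit sets of Pisot numbers without interior.** -/
theorem not_sidonOn_of_pisot' {θ : ℝ} (h : IsPisot θ) (A : Finset ℝ)
    (hA : ∀ a ∈ A, ∃ p : ℚ[X], aeval θ p = a)
    (harc : ¬ HasArc (e '' digitSet θ (A : Set ℝ))) {E : Set ℂ}
    (hE : E ⊆ e '' digitSet θ (A : Set ℝ)) : ¬ SidonOn E := by
  classical
  intro hS
  have hθ : 1 < θ := h.1
  obtain ⟨M, hM, hMD⟩ := DZ.exists_denom A hA
  have hM0 : (M : ℝ) ≠ 0 := by
    have : (0 : ℝ) < M := by exact_mod_cast hM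
    exact this.ne'
  set D : Finset ℝ := A.image fun d => (M : ℝ) * d with hD
  have hDc : (D : Set ℝ) = (fun a => (M : ℝ) * a) '' (A : Set ℝ) := by
    rw [hD, Finset.coe_image]
  have hDX : digitSet θ (D : Set ℝ) = (fun x => (M : ℝ) * x) '' digitSet θ (A : Set ℝ) := by
    rw [hDc, digitSet_image θ M hM0]
  have hDp : ∀ d ∈ D, ∃ p : ℤ[X], aeval θ p = d := fun d hd => by
    obtain ⟨d', hd', rfl⟩ := Finset.mem_image.1 hd
    exact hMD d' hd'
  have hfin := lam_diff_finite h D hDp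
  have hvol : volume (digitSet θ (D : Set ℝ)) = 0 := by
    by_contra hpos
    have h1 := interior_of_pos hθ D hfin hpos
    apply harc
    apply hasArc_of_interior
    rw [hDX] at h1
    have h2 := (Homeomorph.mulLeft₀ (M : ℝ) hM0).image_interior (digitSet θ (A : Set ℝ))
    simp only [Homeomorph.coe_mulLeft₀] at h2
    rw [← h2] at h1
    exact Set.image_nonempty.1 h1
  obtain ⟨c, hc, hsep⟩ : ∃ c : ℝ, 0 < c ∧ ∀ n, ∀ u ∈ Lam θ (D : Set ℝ) n,
      ∀ v ∈ Lam θ (D : Set ℝ) n, u ≠ v → c ≤ |u - v| := by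
    set F : Finset ℝ := (hfin 1).toFinset.filter fun x => x ≠ 0 with hF
    rcases F.eq_empty_or_nonempty with h0 | h0
    · refine ⟨1, one_pos, fun n u hu v hv hne => ?_⟩
      by_contra hlt
      push Not at hlt
      have : u - v ∈ F := by
        rw [hF, Finset.mem_filter, Set.Finite.mem_toFinset]
        exact ⟨⟨hlt.le, n, u, hu, v, hv, rfl⟩, sub_ne_zero.2 hne⟩
      rw [h0] at this
      exact absurd this (Finset.notMem_empty _)
    · obtain ⟨x, hx, hmin⟩ := F.exists_min_image (fun x => |x|) h0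
      have hx0 : x ≠ 0 := (Finset.mem_filter.1 hx).2
      refine ⟨min |x| 1, lt_min (abs_pos.2 hx0) one_pos, fun n u hu v hv hne => ?_⟩
      by_cases hlt : |u - v| ≤ 1
      · have : u - v ∈ F := by
          rw [hF, Finset.mem_filter, Set.Finite.mem_toFinset]
          exact ⟨⟨hlt, n, u, hu, v, hv, rfl⟩, sub_ne_zero.2 hne⟩
        exact (min_le_left _ _).trans (hmin _ this)
      · push Not at hlt
        exact (min_le_right _ _).trans hlt.le
  have hcount := count_small hθ D hc hsep hvol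
  obtain ⟨m, w, η, h1, h2, h3, h4⟩ := misses_pisot' h D hDp hcount
  have hsub : (fun z => z ^ M) '' E ⊆ e '' digitSet θ (D : Set ℝ) := by
    rintro _ ⟨z, hz, rfl⟩
    obtain ⟨x, hx, rfl⟩ := hE hz
    refine ⟨M * x, ?_, (e_pow M x).symm⟩
    rw [hDX]
    exact ⟨x, hx, rfl⟩
  refine not_misses h1 w h2 h3 (E := (fun z => z ^ M) '' E) ?_ (DZ.sidonOn_pow hS hM)
    fun κ R hκ => ?_
  · intro z hz
    obtain ⟨x, -, rfl⟩ := hsub hz
    simpa using norm_e x
  · obtain ⟨n, t, h5, h6, h7⟩ := h4 κ R hκ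
    exact ⟨n, t, h5, h6, fun z hz => h7 z (hsub hz)⟩

/-- **The dichotomy for all finite digit sets.** -/
theorem digit_iff' {θ : ℝ} (hθ : 1 < θ) (A : Finset ℝ)
    (h0 : (0 : ℝ) ∈ A) (ha : ∃ a ∈ A, a ≠ 0 ∧ a ∈ ℚ⟮θ⟯) :
    (∃ S : Set ℂ, S ⊆ ball 0 1 ∧ IsForcing S ∧
      closure S ∩ sphere 0 1 = e '' digitSet θ (A : Set ℝ)) ↔
        (¬ IsPisot θ ∨ (¬ ∀ a ∈ A, a ∈ ℚ⟮θ⟯) ∨ HasArc (e '' digitSet θ (A : Set ℝ))) := by
  have hsub : e '' digitSet θ (A : Set ℝ) ⊆ sphere 0 1 := by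
    rintro z ⟨x, -, rfl⟩
    simpa using norm_e x
  constructor
  · rintro ⟨S, hS, hF, hE⟩
    by_contra hcon
    push Not at hcon
    obtain ⟨hp, hA, harc⟩ := hcon
    have h1 := sidonOn_of_forcing hS hF
    rw [hE] at h1
    exact not_sidonOn_of_pisot' hp A (fun d hd => DW.aeval_of_mem hp (hA d hd)) harc
      (E := e '' digitSet θ (A : Set ℝ)) subset_rfl h1
  · intro h
    have h1 : SidonOn (e '' digitSet θ (A : Set ℝ)) := by
      by_cases hpA : IsPisot θ ∧ ∀ a ∈ A, a ∈ ℚ⟮θ⟯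
      · rcases h with h | h | h
        · exact absurd hpA.1 h
        · exact absurd hpA.2 h
        · exact sidonOn_of_hasArc h
      · obtain ⟨a, haA, ha0, haF⟩ := ha
        refine DW.sidonOn_of_digits hθ ⟨0, h0, a, haA, ha0.symm⟩ ?_
        rintro ⟨hp, r, hr⟩
        refine hpA ⟨hp, fun d hd => ?_⟩
        obtain ⟨x, hx, h2⟩ := hr a haA 0 h0
        obtain ⟨y, hy, h3⟩ := hr d hd 0 h0
        rw [sub_zero] at h2 h3
        have hx0 : x ≠ 0 := by
          rintro rfl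
          exact ha0 (by rw [h2, mul_zero])
        have h4 : r = a / x := by
          rw [h2]
          field_simp
        rw [h3, h4]
        exact mul_mem (div_mem haF hx) hy
    exact ⟨radii (e '' digitSet θ (A : Set ℝ)), radii_subset hsub, forcing_radii hsub h1,
      DW.closure_radii_eq hsub (DW.isClosed_digit hθ A)⟩

end Forcing.DP
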