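import Pool.Agent.Lib.MP_c80ac4_an.DP.Defs
import Pool.Agent.Lib.MP_c80ac4_an.HM.PisotNT

/-!
# Row P1 (helper3): the differences of sums of digits in a bounded interval are finitely many

PROOF IN WORDS. Take `m N A' C r` from `HM.exists_data h` (`HM/PisotNT.lean`):
`|N k - θ ^ k| ≤ C r ^ k`, `θ ^ i = ∑ l, A' i l θ ^ l`, `N (k + i) = ∑ l, A' i l N (k + l)`, and the
powers `θ ^ l`, `l < m`, are linearly independent over `ℤ`.
For a polynomial `p : ℤ[X]` put `c p l = ∑ i ∈ p.support, p_i * A' i l` (integers) and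
`I p s = ∑ l, c p l * N (s + l)`. Then `p(θ) = ∑ l, c p l θ ^ l` and `I p s = ∑ i, p_i N (s + i)`
(recurrence with `k = s`). Both depend only on `x = p(θ)` (linear independence).
(1) BOUND. If `x = u - v`, `u, v ∈ Lam θ A n` with digits `d j = q_(d j)(θ)`, then with
`p = ∑ j < n, (q_(d j) - q_(d' j)) X ^ (n-1-j)` we have `x = p(θ)` and
`|I p s - x θ ^ s| ≤ K r ^ s` with `K` independent of `n, u, v`, because for a single digit `q(θ)` we
have `|I q s - q(θ) θ ^ s| ≤ C' r ^ s` (see `HM.digit_approx` in `HM/Pisot.lean`), `I (q X ^ k) s =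
I q (s + k)`, `I` is additive in `p`, and `∑ k, r ^ k ≤ (1-r)⁻¹`.
So for `|x| ≤ R` the integers `I p 0, …, I p (m-1)` are bounded in terms of `R`.
(2) INJECTIVITY. If two such `x = p(θ)`, `x' = p'(θ)` have the same `I p s` for `s < m`, then the
integer vector `c = c p - c p'` satisfies `∑ l, c l N (s + l) = 0` for `s < m`, by the recurrence
`N (s + m) = ∑ l, A' m l N (s + l)` for all `s`, so `|∑ l, c l θ ^ l| θ ^ s ≤ C'' r ^ s` for all `s`,
so `x = x'`.
A bounded set of integer vectors is finite (`Set.finite_Icc` in `Fin m → ℤ`), so the set is finite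
(`Set.Finite.of_finite_image` or `Set.Finite.of_injOn`). Any other proof is welcome (for instance by
the conjugates of `x` and Mathlib's finiteness of algebraic integers with bounded conjugates,
`NumberField.Embeddings.finite_of_norm_le`, the conjugates of `x` other than `x` are bounded by
`2 ∑ a |σ a| / (1 - |σ θ|)`).
-/

namespace Forcing.DP

open Polynomial

/-- `∑ i, p_i N (s + i)` -/
private noncomputable def P1_L (N : ℕ → ℤ) (s : ℕ) : ℤ[X] →+ ℤ where
  toFun p := p.sum fun i a => a * N (s + i)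
  map_zero' := by simp
  map_add' p q := Polynomial.sum_add_index p q _ (fun i => zero_mul _) (fun i a b => by ring)

private theorem P1_L_monomial (N : ℕ → ℤ) (s l : ℕ) (a : ℤ) : P1_L N s (monomial l a) = a * N (s + l) := by
  show (monomial l a).sum (fun i a => a * N (s + i)) = _
  exact Polynomial.sum_monomial_index a (fun i a => a * N (s + i)) (zero_mul _)

private theorem P1_shift (N : ℕ → ℤ) (s k : ℕ) (p : ℤ[X]) : P1_L N s (p * X ^ k) = P1_L N (s + k) p := by
  induction p using Polynomial.induction_on' with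
  | add p q hp hq => rw [add_mul, map_add, map_add, hp, hq]
  | monomial l a =>
    rw [monomial_mul_X_pow, P1_L_monomial, P1_L_monomial]
    congr 2
    ring

private theorem P1_rec {m : ℕ} {N : ℕ → ℤ} {A : ℕ → Fin m → ℤ} (hA : ∀ k i, N (k + i) = ∑ l : Fin m, A i l * N (k + l))
    (s : ℕ) (p : ℤ[X]) : P1_L N (s + m) p = ∑ l : Fin m, A m l * P1_L N (s + l) p := by
  induction p using Polynomial.induction_on' with
  | add p q hp hq =>
    rw [map_add, hp, hq, ← Finset.sum_add_distrib]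
    refine Finset.sum_congr rfl fun l _ => ?_
    rw [map_add]
    ring
  | monomial i a =>
    rw [P1_L_monomial, show s + m + i = (s + i) + m by ring, hA (s + i) m, Finset.mul_sum]
    refine Finset.sum_congr rfl fun l _ => ?_
    rw [P1_L_monomial, show s + i + (l : ℕ) = s + l + i by ring]
    ring

private theorem P1_zero {m : ℕ} {N : ℕ → ℤ} {A : ℕ → Fin m → ℤ} (hA : ∀ k i, N (k + i) = ∑ l : Fin m, A i l * N (k + l))
    (p : ℤ[X]) (h : ∀ s : Fin m, P1_L N s p = 0) : ∀ s, P1_L N s p = 0 := by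
  intro s
  induction s using Nat.strong_induction_on with
  | _ s ih =>
    rcases lt_or_ge s m with h1 | h1
    · exact h ⟨s, h1⟩
    · obtain ⟨t, rfl⟩ : ∃ t, s = t + m := ⟨s - m, by omega⟩
      rw [P1_rec hA]
      refine Finset.sum_eq_zero fun l _ => ?_
      rw [ih (t + l) (by have := l.2; omega), mul_zero]

private theorem P1_approx {θ C r : ℝ} {N : ℕ → ℤ} (hC : 0 ≤ C) (hr0 : 0 ≤ r) (hr1 : r < 1)
    (hN : ∀ k, |(N k : ℝ) - θ ^ k| ≤ C * r ^ k) (p : ℤ[X]) :
    ∃ C' : ℝ, 0 ≤ C' ∧ ∀ s, |(P1_L N s p : ℝ) - aeval θ p * θ ^ s| ≤ C' * r ^ s := by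
  induction p using Polynomial.induction_on' with
  | add p q hp hq =>
    obtain ⟨c, hc, h1⟩ := hp
    obtain ⟨c', hc', h2⟩ := hq
    refine ⟨c + c', by positivity, fun s => ?_⟩
    rw [map_add, map_add]
    push_cast
    have h3 : (P1_L N s p : ℝ) + P1_L N s q - (aeval θ p + aeval θ q) * θ ^ s =
        ((P1_L N s p : ℝ) - aeval θ p * θ ^ s) + ((P1_L N s q : ℝ) - aeval θ q * θ ^ s) := by ring
    rw [h3]
    refine (abs_add_le _ _).trans ?_
    rw [add_mul]
    exact add_le_add (h1 s) (h2 s)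
  | monomial l a =>
    refine ⟨|(a : ℝ)| * C, by positivity, fun s => ?_⟩
    rw [aeval_monomial, P1_L_monomial]
    push_cast
    have h3 : (a : ℝ) * (N (s + l) : ℝ) - algebraMap ℤ ℝ a * θ ^ l * θ ^ s =
        (a : ℝ) * ((N (s + l) : ℝ) - θ ^ (s + l)) := by
      rw [pow_add, eq_intCast]
      ring
    rw [h3, abs_mul, mul_assoc]
    refine mul_le_mul_of_nonneg_left ((hN _).trans ?_) (abs_nonneg _)
    refine mul_le_mul_of_nonneg_left ?_ hC
    exact pow_le_pow_of_le_one hr0 hr1.le (Nat.le_add_right _ _)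

private theorem P1_geom {r : ℝ} (hr0 : 0 ≤ r) (hr1 : r < 1) (a : ℕ) :
    ∑ j ∈ Finset.range a, r ^ j ≤ (1 - r)⁻¹ := by
  rw [← tsum_geometric_of_lt_one hr0 hr1]
  exact (summable_geometric_of_lt_one hr0 hr1).sum_le_tsum _ fun _ _ => pow_nonneg hr0 _

theorem lam_diff_finite {θ : ℝ} (h : IsPisot θ) (A : Finset ℝ)
    (hA : ∀ a ∈ A, ∃ p : ℤ[X], aeval θ p = a) (R : ℝ) :
    {x : ℝ | |x| ≤ R ∧ ∃ n, ∃ u ∈ Lam θ (A : Set ℝ) n, ∃ v ∈ Lam θ (A : Set ℝ) n,
      x = u - v}.Finite := by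
  classical
  have hθ : 1 < θ := h.1
  obtain ⟨m, N, A', C, r, hm, hC, hr0, hr1, hN, -, hrec, -⟩ := Forcing.HM.exists_data h
  have hg0 : 0 < (1 - r)⁻¹ := inv_pos.2 (by linarith)
  -- polynomials and constants of the digits
  choose! q hq using hA
  choose c hc0 hc using fun a : ℝ => P1_approx hC hr0 hr1 hN (q a)
  set CD : ℝ := ∑ a ∈ A, c a with hCD
  have hCD0 : 0 ≤ CD := Finset.sum_nonneg fun a _ => hc0 a
  have hcle : ∀ a ∈ A, c a ≤ CD := fun a ha => Finset.single_le_sum (f := c) (fun i _ => hc0 i) ha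
  have hdig : ∀ a ∈ A, ∀ s, |(P1_L N s (q a) : ℝ) - a * θ ^ s| ≤ CD * r ^ s := by
    intro a ha s
    have h1 := hc a s
    rw [hq a ha] at h1
    exact h1.trans (mul_le_mul_of_nonneg_right (hcle a ha) (pow_nonneg hr0 s))
  set K : ℝ := 2 * CD * (1 - r)⁻¹ with hK
  set S : Set ℝ := {x : ℝ | |x| ≤ R ∧ ∃ n, ∃ u ∈ Lam θ (A : Set ℝ) n, ∃ v ∈ Lam θ (A : Set ℝ) n, x = u - v} with hS
  -- the polynomial of a difference
  have hpoly : ∀ x ∈ S, ∃ p : ℤ[X], aeval θ p = x ∧ ∀ s, |(P1_L N s p : ℝ) - x * θ ^ s| ≤ K := by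
    rintro x ⟨-, n, u, ⟨d, hd, rfl⟩, v, ⟨d', hd', rfl⟩, rfl⟩
    refine ⟨∑ j ∈ Finset.range n, (q (d j) - q (d' j)) * X ^ (n - 1 - j), ?_, fun s => ?_⟩
    · rw [map_sum, ← Finset.sum_sub_distrib]
      refine Finset.sum_congr rfl fun j _ => ?_
      rw [map_mul, map_sub, map_pow, aeval_X, hq _ (hd j), hq _ (hd' j)]
      ring
    · have e1 : (P1_L N s (∑ j ∈ Finset.range n, (q (d j) - q (d' j)) * X ^ (n - 1 - j)) : ℝ) -
          (∑ j ∈ Finset.range n, d j * θ ^ (n - 1 - j) - ∑ j ∈ Finset.range n, d' j * θ ^ (n - 1 - j)) * θ ^ s =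
          ∑ j ∈ Finset.range n, (((P1_L N (s + (n - 1 - j)) (q (d j)) : ℝ) - d j * θ ^ (s + (n - 1 - j))) -
            ((P1_L N (s + (n - 1 - j)) (q (d' j)) : ℝ) - d' j * θ ^ (s + (n - 1 - j)))) := by
        rw [map_sum, ← Finset.sum_sub_distrib, Finset.sum_mul]
        push_cast
        rw [← Finset.sum_sub_distrib]
        refine Finset.sum_congr rfl fun j _ => ?_
        rw [P1_shift, map_sub]
        push_cast
        rw [pow_add]
        ring
      rw [e1]
      refine (Finset.abs_sum_le_sum_abs _ _).trans ?_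
      have e2 : ∀ j ∈ Finset.range n, |((P1_L N (s + (n - 1 - j)) (q (d j)) : ℝ) - d j * θ ^ (s + (n - 1 - j))) -
            ((P1_L N (s + (n - 1 - j)) (q (d' j)) : ℝ) - d' j * θ ^ (s + (n - 1 - j)))| ≤ 2 * CD * r ^ (n - 1 - j) := by
        intro j _
        refine (abs_sub _ _).trans ?_
        have h1 := hdig _ (hd j) (s + (n - 1 - j))
        have h2 := hdig _ (hd' j) (s + (n - 1 - j))
        have h3 : r ^ (s + (n - 1 - j)) ≤ r ^ (n - 1 - j) := pow_le_pow_of_le_one hr0 hr1.le (by omega)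
        have h4 := mul_le_mul_of_nonneg_left h3 hCD0
        linarith
      refine (Finset.sum_le_sum e2).trans ?_
      rw [← Finset.mul_sum, Finset.sum_range_reflect (fun j => r ^ j) n]
      exact mul_le_mul_of_nonneg_left (P1_geom hr0 hr1 n) (by positivity)
  choose! p hp1 hp2 using hpoly
  set B : ℤ := ⌈R * θ ^ m + K⌉ with hB
  refine Set.Finite.of_injOn (f := fun x => fun s : Fin m => P1_L N s (p x)) (t := Set.Icc (fun _ => -B) (fun _ => B))
    ?_ ?_ (Set.finite_Icc _ _)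
  · intro x hx
    have hb : ∀ s : Fin m, |(P1_L N s (p x) : ℝ)| ≤ B := by
      intro s
      have h1 := hp2 x hx s
      have h2 : |x * θ ^ (s : ℕ)| ≤ R * θ ^ m := by
        rw [abs_mul, abs_of_pos (pow_pos (by linarith : (0 : ℝ) < θ) (s : ℕ))]
        have h3 : θ ^ (s : ℕ) ≤ θ ^ m := pow_le_pow_right₀ hθ.le s.2.le
        exact mul_le_mul hx.1 h3 (by positivity) ((abs_nonneg x).trans hx.1)
      have h3 : |(P1_L N s (p x) : ℝ)| ≤ |(P1_L N s (p x) : ℝ) - x * θ ^ (s : ℕ)| + |x * θ ^ (s : ℕ)| := by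
        have := abs_add_le ((P1_L N s (p x) : ℝ) - x * θ ^ (s : ℕ)) (x * θ ^ (s : ℕ))
        rwa [sub_add_cancel] at this
      have h4 : R * θ ^ m + K ≤ B := Int.le_ceil _
      linarith
    rw [Set.mem_Icc]
    constructor
    · intro s
      have := (abs_le.1 (hb s)).1
      exact_mod_cast this
    · intro s
      have := (abs_le.1 (hb s)).2
      exact_mod_cast this
  · intro x hx y hy hxy
    have h1 : ∀ s : Fin m, P1_L N s (p x - p y) = 0 := by
      intro s
      have := congrFun hxy s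
      simp only at this
      rw [map_sub, this, sub_self]
    have h2 := P1_zero hrec _ h1
    obtain ⟨C', -, hC'⟩ := P1_approx hC hr0 hr1 hN (p x - p y)
    have h3 : ∀ s : ℕ, |x - y| * θ ^ s ≤ C' * r ^ s := by
      intro s
      have h4 := hC' s
      rw [h2 s, map_sub, hp1 x hx, hp1 y hy, Int.cast_zero, zero_sub, abs_neg, abs_mul,
        abs_of_pos (pow_pos (by linarith : (0 : ℝ) < θ) s)] at h4
      exact h4
    have h4 : Filter.Tendsto (fun s : ℕ => C' * r ^ s) Filter.atTop (nhds 0) := by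
      have := (tendsto_pow_atTop_nhds_zero_of_lt_one hr0 hr1).const_mul C'
      rwa [mul_zero] at this
    have h5 : |x - y| ≤ 0 := by
      refine ge_of_tendsto h4 (Filter.Eventually.of_forall fun s => ?_)
      refine le_trans ?_ (h3 s)
      exact le_mul_of_one_le_right (abs_nonneg _) (one_le_pow₀ hθ.le)
    exact sub_eq_zero.1 (abs_eq_zero.1 (le_antisymm h5 (abs_nonneg _)))

end Forcing.DP
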